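import Pool.Agent.TH871.LF.Num

open Finset Filter Topology

namespace Pool.Agent.TH871.LF

noncomputable section

/-- normalisation -/
def NJ (J : ℕ) : ℝ := 1 + 2 / 25 * s2 J

/-- the probabilities proportional to `1`, `1 / (25 k²)`, `1 ≤ |k| ≤ J` -/
def PJ (J : ℕ) (k : ℕ) : ℝ := if k ≤ J then ph k ^ 2 / NJ J else 0

lemma s2_nonneg (J : ℕ) : 0 ≤ s2 J := sum_nonneg fun _ _ => by positivity

lemma NJ_ge (J : ℕ) : 1 ≤ NJ J := by
  have := s2_nonneg J
  unfold NJ; linarith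

lemma NJ_pos (J : ℕ) : 0 < NJ J := lt_of_lt_of_le one_pos (NJ_ge J)

lemma NJ_le (J : ℕ) : NJ J ≤ 11316 / 10000 := by
  have := s2_le J
  unfold NJ; linarith

lemma PJ_nonneg (J k : ℕ) : 0 ≤ PJ J k := by
  unfold PJ
  have := NJ_pos J
  split_ifs
  · positivity
  · exact le_rfl

lemma PJ_eq {J k : ℕ} (hk : k ≤ J) : PJ J k = ph k ^ 2 / NJ J := if_pos hk

lemma PJ_sum (J : ℕ) : ∑ j ∈ Icc (-(J : ℤ)) J, PJ J j.natAbs = 1 := by
  rw [sum_Icc_natAbs, PJ_eq (Nat.zero_le J), ph_zero]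
  have h1 : ∑ k ∈ range J, PJ J (k + 1) = 1 / 25 * s2 J / NJ J := by
    unfold s2
    rw [mul_sum, sum_div]
    refine sum_congr rfl fun k hk => ?_
    rw [mem_range] at hk
    rw [PJ_eq (by omega), ph_succ]
    congr 1
    field_simp
    norm_num
  rw [h1]
  have := (NJ_pos J).ne'
  field_simp
  unfold NJ
  ring

lemma PJ_corr (J m : ℕ) : corr J (PJ J) m =
    (∑ j ∈ Icc (-(J : ℤ)) ((J : ℤ) - m), ph j.natAbs * ph (j + m).natAbs) / NJ J := by
  unfold corr
  rw [sum_div]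
  refine sum_congr rfl fun j hj => ?_
  rw [mem_Icc] at hj
  have hN := NJ_pos J
  have hN' : √(NJ J) ≠ 0 := by positivity
  rw [PJ_eq (by omega), PJ_eq (by omega), Real.sqrt_div (by positivity), Real.sqrt_div (by positivity),
    Real.sqrt_sq (ph_pos _).le, Real.sqrt_sq (ph_pos _).le, div_mul_div_comm, Real.mul_self_sqrt hN.le]

lemma PJ_ent (J : ℕ) : ent J (PJ J) = Real.log (NJ J) + 4 / 25 * (Real.log 5 * s2 J + sl J) / NJ J := by
  unfold ent
  have hN := NJ_pos J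
  rw [sum_Icc_natAbs (fun k => Real.negMulLog (PJ J k)), PJ_eq (Nat.zero_le J), ph_zero]
  have h1 : ∑ k ∈ range J, Real.negMulLog (PJ J (k + 1)) =
      1 / 25 * s2 J * (Real.log (NJ J) / NJ J) + 2 / 25 * (Real.log 5 * s2 J + sl J) / NJ J := by
    have h2 : ∀ k ∈ range J, Real.negMulLog (PJ J (k + 1)) =
        1 / 25 * (1 / ((k : ℝ) + 1) ^ 2) * (Real.log (NJ J) / NJ J) +
        2 / 25 * (Real.log 5 * (1 / ((k : ℝ) + 1) ^ 2) + Real.log ((k : ℝ) + 1) / ((k : ℝ) + 1) ^ 2)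
          / NJ J := by
      intro k hk
      rw [mem_range] at hk
      rw [PJ_eq (by omega), ph_succ, Real.negMulLog, Real.log_div (by positivity) hN.ne',
        Real.log_pow, one_div, Real.log_inv, Real.log_mul (by norm_num) (by positivity)]
      push_cast
      field_simp
      ring
    rw [sum_congr rfl h2, sum_add_distrib, ← sum_mul, ← mul_sum, ← sum_div, ← mul_sum,
      sum_add_distrib, ← mul_sum]
    rfl
  rw [h1, Real.negMulLog, one_pow, Real.log_div one_ne_zero hN.ne', Real.log_one]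
  have h3 : NJ J = 1 + 2 / 25 * s2 J := rfl
  have h4 : Real.log (NJ J) = (1 + 2 / 25 * s2 J) * (Real.log (NJ J) / NJ J) := by
    rw [← h3]; field_simp
  have h5 : -(1 / NJ J) * (0 - Real.log (NJ J)) = Real.log (NJ J) / NJ J := by ring
  rw [h5]
  linear_combination -h4

/-- total energy -/
lemma energy_ge (J K : ℕ) (hK : K < J) :
    (en K - 2 / 25 * (K / ((J : ℝ) - K))) / NJ J ≤
      ∑ j ∈ range (2 * J), corr J (PJ J) (j + 1) / ((j : ℝ) + 1) := by
  have hN := NJ_pos J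
  have hJK : (0 : ℝ) < (J : ℝ) - K := by
    have : (K : ℝ) < J := by exact_mod_cast hK
    linarith
  have h1 : ∑ j ∈ range K, corr J (PJ J) (j + 1) / ((j : ℝ) + 1) ≤
      ∑ j ∈ range (2 * J), corr J (PJ J) (j + 1) / ((j : ℝ) + 1) := by
    refine sum_le_sum_of_subset_of_nonneg (range_subset_range.mpr (by omega)) fun j _ _ => ?_
    exact div_nonneg (corr_nonneg J _ _) (by positivity)
  refine le_trans ?_ h1
  have h2 : (K : ℝ) / ((J : ℝ) - K) = ∑ k ∈ range K, 1 / ((J : ℝ) - K) := by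
    rw [sum_const, card_range, nsmul_eq_mul]; ring
  rw [h2, mul_sum]
  unfold en
  rw [← sum_sub_distrib, sum_div]
  refine sum_le_sum fun k hk => ?_
  rw [mem_range] at hk
  have h3 := corr_ph J k (by omega)
  rw [PJ_corr J (k + 1)]
  have hk0 : (0 : ℝ) < (k : ℝ) + 1 := by positivity
  rw [div_right_comm]
  refine div_le_div_of_nonneg_right ?_ hN.le
  have h4 := div_le_div_of_nonneg_right h3 hk0.le
  refine le_trans ?_ h4
  have h5 : ((J - k : ℕ) : ℝ) = (J : ℝ) - k := by rw [Nat.cast_sub (by omega)]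
  have hkK : (k : ℝ) ≤ K := by exact_mod_cast hk.le
  have h6 : 1 / ((J - k : ℕ) : ℝ) ≤ 1 / ((J : ℝ) - K) := by
    rw [h5]
    exact one_div_le_one_div_of_le hJK (by linarith)
  have h7 : 1 / ((J - k : ℕ) : ℝ) / ((k : ℝ) + 1) ≤ 1 / ((J : ℝ) - K) := by
    refine le_trans (div_le_self ?_ ?_) h6
    · positivity
    · have : (0 : ℝ) ≤ k := by positivity
      linarith
  have e1 : (2 / 5 / ((k : ℝ) + 1) + 2 / 25 * (Hn k + Hn (k + 1)) / ((k : ℝ) + 1) -
      2 / 25 / ((J - k : ℕ) : ℝ)) / ((k : ℝ) + 1) =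
      (2 / 5 + 2 / 25 * (Hn k + Hn (k + 1))) / ((k : ℝ) + 1) ^ 2 -
      2 / 25 * (1 / ((J - k : ℕ) : ℝ) / ((k : ℝ) + 1)) := by
    field_simp
  rw [e1]
  linarith

lemma Hn_le (K : ℕ) : Hn K ≤ 1 + Real.log K := by
  have h1 := harmonic_le_one_add_log K
  have h2 : ((harmonic K : ℚ) : ℝ) = Hn K := by
    unfold harmonic Hn
    push_cast
    refine sum_congr rfl fun i _ => ?_
    rw [one_div]
  rw [h2] at h1
  exact h1

theorem final_num (J K : ℕ) (hK : (K : ℝ) = 1000000) (hJ : (J : ℝ) = 1000000 * 1000000) :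
    Real.log (77 / 10) < Real.log (2 * Real.pi) +
      ∑ j ∈ range (2 * J), corr J (PJ J) (j + 1) / ((j : ℝ) + 1) - ent J (PJ J) := by
  have hKJ : K < J := by
    have : (K : ℝ) < J := by rw [hK, hJ]; norm_num
    exact_mod_cast this
  have hK30 : 30 ≤ K := by
    have : ((30 : ℕ) : ℝ) ≤ K := by rw [hK]; norm_num
    exact_mod_cast this
  have hJ16 : 16 ≤ J := by omega
  have hN := NJ_pos J
  have h1 := energy_ge J K hKJ
  have h2 := en_mono K hK30
  have h3 := Hn_le K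
  have h4 := sl_bound J hJ16
  have h5 := s2_le J
  have h5' := s2_nonneg J
  rw [PJ_ent]
  have l10 : Real.log 10 ≤ 2.31 :=
    log_le_of_sum (by norm_num) (by norm_num) 14 (by norm_num [sum_range_succ, Nat.factorial])
  have l5 : Real.log 5 ≤ 160944 / 100000 :=
    log_le_of_sum (by norm_num) (by norm_num) 14 (by norm_num [sum_range_succ, Nat.factorial])
  have l5' : 0 ≤ Real.log 5 := Real.log_nonneg (by norm_num)
  have hlogK : Real.log (K : ℝ) ≤ 14 := by
    rw [hK, show (1000000 : ℝ) = 10 ^ 6 by norm_num, Real.log_pow]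
    push_cast; linarith
  have h6 : (2 / 5 + 4 / 25 * (Hn K + 1)) / ((K : ℝ) + 1) ≤ 1 / 100000 := by
    rw [hK, div_le_iff₀ (by norm_num)]
    linarith
  have h7 : 2 / 25 * ((K : ℝ) / ((J : ℝ) - K)) ≤ 1 / 100000 := by
    rw [hK, hJ]; norm_num
  have h8 : 94577 / 100000 ≤ en K - 2 / 25 * ((K : ℝ) / ((J : ℝ) - K)) := by linarith
  have h9 : Real.log 5 * s2 J ≤ 160944 / 100000 * (1644937 / 1000000) :=
    mul_le_mul l5 h5 h5' (by norm_num)
  have h10 : 4 / 25 * (Real.log 5 * s2 J + sl J) ≤ 57446 / 100000 := by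
    have : (4 : ℝ) / 25 * (160944 / 100000 * (1644937 / 1000000) + 94288 / 100000) ≤ 57446 / 100000 := by
      norm_num
    linarith
  set A := en K - 2 / 25 * ((K : ℝ) / ((J : ℝ) - K)) with hA
  set C := 4 / 25 * (Real.log 5 * s2 J + sl J) with hC
  have h11 : (37131 / 100000 : ℝ) / (11316 / 10000) ≤ A / NJ J - C / NJ J := by
    rw [← sub_div]
    have h12 : (37131 / 100000 : ℝ) ≤ A - C := by linarith
    calc (37131 / 100000 : ℝ) / (11316 / 10000) ≤ (37131 / 100000 : ℝ) / NJ J :=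
          div_le_div_of_nonneg_left (by norm_num) hN (NJ_le J)
      _ ≤ (A - C) / NJ J := div_le_div_of_nonneg_right h12 hN.le
  have h13 : Real.log (NJ J) ≤ 12364 / 100000 := by
    refine (Real.log_le_log hN (NJ_le J)).trans ?_
    exact log_le_of_sum (by norm_num) (by norm_num) 6 (by norm_num [sum_range_succ, Nat.factorial])
  have h14 : Real.log (77 / 10) - Real.log (2 * Real.pi) ≤ 20335 / 100000 := by
    rw [← Real.log_div (by norm_num) (by positivity)]
    refine log_le_of_sum (by positivity) (by norm_num) 7 ?_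
    have hpi := Real.pi_gt_d6
    have h15 : (77 / 10 : ℝ) / (2 * Real.pi) ≤ 12255 / 10000 := by
      rw [div_le_iff₀ (by positivity)]
      nlinarith
    refine h15.trans ?_
    norm_num [sum_range_succ, Nat.factorial]
  have h16 : (12364 / 100000 : ℝ) + 20335 / 100000 < (37131 / 100000 : ℝ) / (11316 / 10000) := by
    norm_num
  linarith

theorem main : ∃ n0 : ℕ, ∀ n ≥ n0, ∀ g : Matrix (Fin n) (Fin n) ℝ, g.det ≠ 0 →
    ∃ p : Fin n → ℤ, p ≠ 0 ∧
      |∏ i, g.mulVec (fun j => (p j : ℝ)) i| ≤ |g.det| / (77 / 10) ^ n := by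
  obtain ⟨K, hK⟩ : ∃ K : ℕ, (K : ℝ) = 1000000 := ⟨1000000, by norm_num⟩
  obtain ⟨J, hJ⟩ : ∃ J : ℕ, (J : ℝ) = 1000000 * 1000000 := ⟨1000000 * 1000000, by norm_num⟩
  obtain ⟨n0, hn0⟩ := asym J (PJ J) (PJ_nonneg J) (fun k hk => if_neg (by omega)) (PJ_sum J)
    (Real.log (77 / 10)) (final_num J K hK hJ)
  refine ⟨n0, fun n hn g hg => ?_⟩
  obtain ⟨p, hp, h⟩ := hn0 n hn g hg
  refine ⟨p, hp, h.trans (le_of_eq ?_)⟩
  have : Real.exp (-(Real.log (77 / 10) * n)) = ((77 / 10 : ℝ) ^ n)⁻¹ := by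
    rw [Real.exp_neg, mul_comm, Real.exp_nat_mul, Real.exp_log (by norm_num)]
  rw [this, mul_comm, ← div_eq_mul_inv]

end

end Pool.Agent.TH871.LF
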