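import Pool.Agent.TH871.LF.Step

open Finset Filter Topology

namespace Pool.Agent.TH871.LF

open Pool.Agent.H390R2.LP

noncomputable section

/-- correlation of the amplitudes `√P |j|` at distance `m` -/
def corr (J : ℕ) (P : ℕ → ℝ) (m : ℕ) : ℝ :=
  ∑ j ∈ Icc (-(J : ℤ)) ((J : ℤ) - m), √(P j.natAbs) * √(P (j + m).natAbs)

/-- entropy -/
def ent (J : ℕ) (P : ℕ → ℝ) : ℝ := ∑ j ∈ Icc (-(J : ℤ)) J, Real.negMulLog (P j.natAbs)

lemma corr_nonneg (J : ℕ) (P : ℕ → ℝ) (m : ℕ) : 0 ≤ corr J P m :=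
  sum_nonneg fun _ _ => by positivity

variable {q : ℕ} [NeZero q] {J : ℕ}

lemma vma_cast (hJ : 2 * J < q) {j : ℤ} (hj : j ∈ Icc (-(J : ℤ)) J) :
    ((j : ZMod q)).valMinAbs = j := by
  rw [ZMod.valMinAbs_spec]
  rw [mem_Icc] at hj
  refine ⟨rfl, ?_, ?_⟩ <;> omega

lemma sum_zmod (hJ : 2 * J < q) (F : ℤ → ℝ) (hF : ∀ j : ℤ, j ∉ Icc (-(J : ℤ)) J → F j = 0) :
    ∑ a : ZMod q, F a.valMinAbs = ∑ j ∈ Icc (-(J : ℤ)) J, F j := by
  classical
  have h1 : ∑ a ∈ univ.filter (fun a : ZMod q => a.valMinAbs ∈ Icc (-(J : ℤ)) J), F a.valMinAbs =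
      ∑ a : ZMod q, F a.valMinAbs := by
    refine sum_filter_of_ne fun a _ ha => ?_
    by_contra h
    exact ha (hF _ h)
  rw [← h1]
  refine Finset.sum_nbij' (i := ZMod.valMinAbs) (j := fun v : ℤ => (v : ZMod q)) ?_ ?_ ?_ ?_ ?_
  · intro a ha; exact (mem_filter.mp ha).2
  · intro j hj
    refine mem_filter.mpr ⟨mem_univ _, ?_⟩
    rw [vma_cast hJ hj]; exact hj
  · intro a _; exact ZMod.coe_valMinAbs a
  · intro j hj; exact vma_cast hJ hj
  · intro a _; rfl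

/-- the eigenvalues on `ZMod q` -/
def lamP (q : ℕ) (P : ℕ → ℝ) (a : ZMod q) : ℝ := P a.valMinAbs.natAbs

lemma lamP_even (P : ℕ → ℝ) (a : ZMod q) : lamP q P (-a) = lamP q P a := by
  unfold lamP
  rw [ZMod.natAbs_valMinAbs_neg]

variable {P : ℕ → ℝ}

lemma natAbs_gt {j : ℤ} (hj : j ∉ Icc (-(J : ℤ)) J) : J < j.natAbs := by
  rw [mem_Icc] at hj
  omega

lemma lamP_sum (hJ : 2 * J < q) (hPJ : ∀ k, J < k → P k = 0) :
    ∑ a : ZMod q, lamP q P a = ∑ j ∈ Icc (-(J : ℤ)) J, P j.natAbs :=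
  sum_zmod hJ (fun j => P j.natAbs) fun _ hj => hPJ _ (natAbs_gt hj)

lemma lamP_ent (hJ : 2 * J < q) (hPJ : ∀ k, J < k → P k = 0) :
    ∑ a : ZMod q, Real.negMulLog (lamP q P a) = ent J P :=
  sum_zmod hJ (fun j => Real.negMulLog (P j.natAbs)) fun _ hj => by
    rw [hPJ _ (natAbs_gt hj), Real.negMulLog_zero]

lemma lamP_corr (hJ : 2 * J < q) (m : ℕ) :
    corr J P m ≤ ∑ b : ZMod q, √(lamP q P b) * √(lamP q P (b + (m : ZMod q))) := by
  classical
  have hsub : Icc (-(J : ℤ)) ((J : ℤ) - m) ⊆ Icc (-(J : ℤ)) J := by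
    intro j hj
    rw [mem_Icc] at hj ⊢
    omega
  have hinj : Set.InjOn (fun j : ℤ => (j : ZMod q)) (Icc (-(J : ℤ)) ((J : ℤ) - m) : Finset ℤ) := by
    intro a ha b hb hab
    have h1 := vma_cast hJ (hsub ha)
    have h2 := vma_cast hJ (hsub hb)
    rw [← h1, ← h2]
    exact congrArg ZMod.valMinAbs hab
  have h3 : corr J P m = ∑ b ∈ (Icc (-(J : ℤ)) ((J : ℤ) - m)).image (fun j : ℤ => (j : ZMod q)),
      √(lamP q P b) * √(lamP q P (b + (m : ZMod q))) := by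
    rw [sum_image hinj]
    unfold corr
    refine sum_congr rfl fun j hj => ?_
    unfold lamP
    have h4 : ((j : ZMod q) + (m : ZMod q)) = ((j + m : ℤ) : ZMod q) := by push_cast; rfl
    have h5 : j + m ∈ Icc (-(J : ℤ)) J := by
      rw [mem_Icc] at hj ⊢
      omega
    rw [h4, vma_cast hJ (hsub hj), vma_cast hJ h5]
  rw [h3]
  exact sum_le_sum_of_subset_of_nonneg (subset_univ _) fun _ _ _ => by positivity

theorem asym (J : ℕ) (P : ℕ → ℝ) (hP : ∀ k, 0 ≤ P k) (hPJ : ∀ k, J < k → P k = 0)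
    (hP1 : ∑ j ∈ Icc (-(J : ℤ)) J, P j.natAbs = 1) (L : ℝ)
    (hL : L < Real.log (2 * Real.pi) + ∑ j ∈ range (2 * J), corr J P (j + 1) / ((j : ℝ) + 1) -
      ent J P) :
    ∃ n0 : ℕ, ∀ n ≥ n0, ∀ g : Matrix (Fin n) (Fin n) ℝ, g.det ≠ 0 →
      ∃ p : Fin n → ℤ, p ≠ 0 ∧
        |∏ i, g.mulVec (fun j => (p j : ℝ)) i| ≤ Real.exp (-(L * n)) * |g.det| := by
  set G := ∑ j ∈ range (2 * J), corr J P (j + 1) / ((j : ℝ) + 1) with hG
  set γ := Real.log (2 * Real.pi) + G - ent J P - L with hγ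
  have hγ0 : 0 < γ := by rw [hγ]; linarith
  set ε := γ / 20 with hε
  have hε0 : 0 < ε := by positivity
  -- choice of r
  have c1 : ContinuousAt (fun r : ℝ => ∑ j ∈ range (2 * J), cf r j * corr J P (j + 1)) 1 := by
    unfold cf
    fun_prop
  have v1 : (fun r : ℝ => ∑ j ∈ range (2 * J), cf r j * corr J P (j + 1)) 1 = G := by
    simp only [cf, one_pow, hG]
    refine sum_congr rfl fun j _ => ?_
    ring
  have c2 : ContinuousAt (fun r : ℝ => Real.log r / 2) 1 := by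
    have : (1 : ℝ) ≠ 0 := one_ne_zero
    fun_prop (disch := assumption)
  have e1 : ∀ᶠ r in 𝓝 (1 : ℝ), G - ε < ∑ j ∈ range (2 * J), cf r j * corr J P (j + 1) := by
    refine c1.eventually (lt_mem_nhds ?_)
    rw [v1]; linarith
  have e2 : ∀ᶠ r in 𝓝 (1 : ℝ), -ε < Real.log r / 2 := by
    refine c2.eventually (lt_mem_nhds ?_)
    simp only [Real.log_one, zero_div]; linarith
  have e3 : ∀ᶠ r in 𝓝 (1 : ℝ), 0 < r := lt_mem_nhds one_pos
  have e4 : ∀ᶠ r in 𝓝[<] (1 : ℝ), r < 1 := self_mem_nhdsWithin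
  obtain ⟨r, ⟨⟨hr1, hr2⟩, hr3⟩, hr4⟩ :=
    ((((e1.and e2).and e3).filter_mono nhdsWithin_le_nhds).and e4).exists
  -- choice of M
  have t1 : Tendsto (fun M : ℕ => r ^ (M + 1) / (1 - r)) atTop (𝓝 0) := by
    have h1 := (tendsto_pow_atTop_nhds_zero_of_lt_one hr3.le hr4).comp (tendsto_add_atTop_nat 1)
    have h2 := h1.div_const (1 - r)
    rw [zero_div] at h2
    exact h2
  obtain ⟨M, hM1, hM2⟩ := ((t1.eventually (gt_mem_nhds hε0)).and (eventually_ge_atTop (2 * J))).exists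
  -- choice of h
  have t2 : Tendsto (fun h : ℕ => (M : ℝ) * (Real.pi / (h : ℝ))) atTop (𝓝 0) := by
    have h1 : Tendsto (fun h : ℕ => Real.pi / (h : ℝ)) atTop (𝓝 0) :=
      tendsto_const_nhds.div_atTop tendsto_natCast_atTop_atTop
    have h2 := h1.const_mul (M : ℝ)
    rw [mul_zero] at h2
    exact h2
  have t3 : Tendsto (fun h : ℕ => Real.log ((2 * h : ℕ) : ℝ)) atTop atTop := by
    refine Real.tendsto_log_atTop.comp (tendsto_natCast_atTop_atTop.comp ?_)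
    exact tendsto_id.const_mul_atTop' (by norm_num)
  obtain ⟨h, ⟨⟨⟨h2, hav⟩, hMh⟩, hlog⟩, hMh2⟩ := ((((avg_cells hε0).and
    (t2.eventually (gt_mem_nhds hε0))).and (t3.eventually_ge_atTop (L + 2 * ε + ent J P))).and
    (eventually_gt_atTop (M + J))).exists
  have : NeZero (2 * h) := ⟨by omega⟩
  have hJq : 2 * J < 2 * h := by omega
  have hl1 : ∑ a, lamP (2 * h) P a = 1 := by rw [lamP_sum hJq hPJ, hP1]
  have hl0 : ∀ a, 0 ≤ lamP (2 * h) P a := fun a => hP _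
  have hS : (circ (lamP (2 * h) P) hl0 hl1 (lamP_even P)).S = ent J P := by
    rw [circ_S, lamP_ent hJq hPJ]
  have hE : (circ (lamP (2 * h) P) hl0 hl1 (lamP_even P)).E (ff M (cf r)) ≤
      ∑ j ∈ range M, cf r j - (G - ε) := by
    rw [circ_E (lamP (2 * h) P) hl0 hl1 (lamP_even P) (by omega) (cf r) (cf_nonneg hr3)]
    have h1 : ∑ j ∈ range M, cf r j * (1 - ∑ b, √(lamP (2 * h) P b) *
        √(lamP (2 * h) P (b + ((j + 1 : ℕ) : ZMod (2 * h))))) ≤
        ∑ j ∈ range M, (cf r j - cf r j * corr J P (j + 1)) := by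
      refine sum_le_sum fun j _ => ?_
      have h3 := lamP_corr (P := P) hJq (j + 1)
      have h4 := cf_nonneg hr3 j
      nlinarith
    rw [sum_sub_distrib] at h1
    have h5 : ∑ j ∈ range (2 * J), cf r j * corr J P (j + 1) ≤
        ∑ j ∈ range M, cf r j * corr J P (j + 1) := by
      refine sum_le_sum_of_subset_of_nonneg (range_subset_range.mpr hM2) fun j _ _ => ?_
      exact mul_nonneg (cf_nonneg hr3 j) (corr_nonneg J P _)
    linarith
  have hav2 : (∑ v ∈ range h, (Real.log (cL h v) - 2 * cW h v)) / h =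
      avg h (fun v => Real.log (cL h v)) - 2 * avg h (cW h) := by
    unfold avg
    rw [sum_sub_distrib, ← mul_sum]
    ring
  rw [hav2] at hav
  have hq : Real.log ((2 * h : ℕ) : ℝ) = Real.log (2 * h) := by push_cast; rfl
  have hlog2pi : Real.log (2 * Real.pi) = Real.log 2 + Real.log Real.pi :=
    Real.log_mul two_ne_zero Real.pi_pos.ne'
  refine step h2 (lamP (2 * h) P) hl0 hl1 (lamP_even P) hr3 hr4 M L ε (γ / 2) hε0 (by positivity)
    ?_ ?_
  · rw [hS, hq]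
    have hγε : γ = 20 * ε := by rw [hε]; ring
    have hγ' : Real.log 2 + Real.log Real.pi + G - ent J P - L = 20 * ε := by
      rw [← hγε, hγ, hlog2pi]
    linarith
  · rw [hS]
    exact hlog

end

end Pool.Agent.TH871.LF
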