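import Mathlib

open Finset MeasureTheory
open scoped Pointwise

namespace Pool.Agent.TH871.LF

noncomputable section

variable {n : ℕ} {Y : Type} [Fintype Y] [DecidableEq Y]

/-- Weights on the subsets of `Y` from the cosets of a lattice: if the sets `B c` are packed by the
lattice `Λ` then there are weights for which the subsets containing `c` have total weight `vol (B c)`. -/
theorem cover (Λ : AddSubgroup (Fin n → ℝ)) [Countable Λ] (s : Set (Fin n → ℝ))
    (hs : IsAddFundamentalDomain Λ s volume) (hsm : MeasurableSet s) (hfin : volume s ≠ ⊤)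
    (B : Y → Set (Fin n → ℝ)) (hB : ∀ c, MeasurableSet (B c))
    (inj : ∀ c, ∀ x ∈ B c, ∀ y ∈ B c, x - y ∈ Λ → x = y) :
    ∃ wt : Finset Y → ℝ, (∀ S, 0 ≤ wt S) ∧
      (∀ c, ∑ S ∈ univ.filter (fun S : Finset Y => c ∈ S), wt S = volume.real (B c)) ∧
      (∀ S, wt S ≠ 0 → ∀ c ∈ S, ∀ c' ∈ S, ∃ x ∈ B c, ∃ y ∈ B c', x - y ∈ Λ) ∧
      ∑ S, wt S = volume.real s := by
  classical
  set U : Y → Set (Fin n → ℝ) := fun c => ⋃ l : Λ, ((l +ᵥ B c) ∩ s) with hU
  have hUm : ∀ c, MeasurableSet (U c) := fun c =>
    MeasurableSet.iUnion fun l => ((hB c).const_vadd l).inter hsm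
  have hUs : ∀ c, U c ⊆ s := fun c => Set.iUnion_subset fun l => Set.inter_subset_right
  have hUvol : ∀ c, volume (U c) = volume (B c) := by
    intro c
    rw [hs.measure_eq_tsum (B c)]
    refine measure_iUnion ?_ (fun l => ((hB c).const_vadd l).inter hsm)
    intro l l' hl
    refine Set.disjoint_left.mpr ?_
    rintro v ⟨⟨x, hx, rfl⟩, -⟩ ⟨⟨y, hy, hxy⟩, -⟩
    apply hl
    have h1 : (l' : Fin n → ℝ) + y = (l : Fin n → ℝ) + x := hxy
    have h2 : x - y = (l' : Fin n → ℝ) - l := by
      have : x = (l' : Fin n → ℝ) + y - l := by rw [h1]; abel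
      rw [this]; abel
    have h3 : x = y := inj c x hx y hy (by rw [h2]; exact Λ.sub_mem l'.2 l.2)
    rw [h3, sub_self] at h2
    exact Subtype.ext (sub_eq_zero.mp h2.symm).symm
  set Sf : (Fin n → ℝ) → Finset Y := fun v => univ.filter (fun c => v ∈ U c) with hSf
  set T : Finset Y → Set (Fin n → ℝ) := fun S => s ∩ {v | Sf v = S} with hT
  have hTm : ∀ S, MeasurableSet (T S) := by
    intro S
    have : T S = s ∩ ⋂ c : Y, (if c ∈ S then U c else (U c)ᶜ) := by
      ext v
      simp only [hT, Set.mem_inter_iff, Set.mem_ofPred_eq, Set.mem_iInter]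
      refine and_congr_right fun _ => ?_
      constructor
      · intro h c
        have h1 : c ∈ S ↔ v ∈ U c := by rw [← h]; simp [hSf]
        split_ifs with h2
        · exact h1.mp h2
        · exact fun h3 => h2 (h1.mpr h3)
      · intro h
        ext c
        have h1 := h c
        simp only [hSf, mem_filter, mem_univ, true_and]
        split_ifs at h1 with h2
        · exact ⟨fun _ => h2, fun _ => h1⟩
        · exact ⟨fun h3 => absurd h3 h1, fun h3 => absurd h3 h2⟩
    rw [this]
    refine hsm.inter (MeasurableSet.iInter fun c => ?_)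
    split_ifs
    · exact hUm c
    · exact (hUm c).compl
  have hTd : Set.PairwiseDisjoint (Set.univ : Set (Finset Y)) T := by
    intro S _ S' _ hne
    refine Set.disjoint_left.mpr ?_
    rintro v ⟨-, h1⟩ ⟨-, h2⟩
    exact hne ((show Sf v = S from h1).symm.trans h2)
  have hTfin : ∀ S, volume (T S) ≠ ⊤ := fun S =>
    ne_top_of_le_ne_top hfin (measure_mono Set.inter_subset_left)
  refine ⟨fun S => volume.real (T S), fun S => measureReal_nonneg, ?_, ?_, ?_⟩
  · intro c
    have h1 : U c = ⋃ S ∈ univ.filter (fun S : Finset Y => c ∈ S), T S := by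
      ext v
      simp only [Set.mem_iUnion, mem_filter, mem_univ, true_and, exists_prop]
      constructor
      · intro hv
        refine ⟨Sf v, ?_, hUs c hv, rfl⟩
        simp only [hSf, mem_filter, mem_univ, true_and]
        exact hv
      · rintro ⟨S, hS, -, h2⟩
        have h3 : Sf v = S := h2
        rw [← h3] at hS
        simpa [hSf] using hS
    have h2 : volume.real (B c) = volume.real (U c) := by
      rw [measureReal_def, measureReal_def, hUvol]
    rw [h2, h1, measureReal_biUnion_finset]
    · intro S _ S' _ hne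
      exact hTd (Set.mem_univ S) (Set.mem_univ S') hne
    · intro S _
      exact hTm S
  · intro S hS c hc c' hc'
    have hne : (T S).Nonempty := by
      by_contra h
      rw [Set.not_nonempty_iff_eq_empty] at h
      apply hS
      simp [h]
    obtain ⟨v, -, hv⟩ := hne
    have hv' : Sf v = S := hv
    rw [← hv'] at hc hc'
    simp only [hSf, mem_filter, mem_univ, true_and, hU, Set.mem_iUnion] at hc hc'
    obtain ⟨l, ⟨x, hx, hxv⟩, -⟩ := hc
    obtain ⟨l', ⟨y, hy, hyv⟩, -⟩ := hc'
    refine ⟨x, hx, y, hy, ?_⟩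
    have h1 : (l : Fin n → ℝ) + x = v := hxv
    have h2 : (l' : Fin n → ℝ) + y = v := hyv
    have : x - y = (l' : Fin n → ℝ) - l := by
      have e1 : x = v - l := by rw [← h1]; abel
      have e2 : y = v - l' := by rw [← h2]; abel
      rw [e1, e2]; abel
    rw [this]
    exact Λ.sub_mem l'.2 l.2
  · have h1 : s = ⋃ S ∈ (univ : Finset (Finset Y)), T S := by
      ext v
      simp only [Set.mem_iUnion, mem_univ, exists_prop, true_and]
      constructor
      · intro hv
        exact ⟨Sf v, hv, rfl⟩
      · rintro ⟨S, hv, -⟩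
        exact hv
    conv_rhs => rw [h1]
    rw [measureReal_biUnion_finset]
    · intro S _ S' _ hne
      exact hTd (Set.mem_univ S) (Set.mem_univ S') hne
    · intro S _
      exact hTm S

/-- fundamental domain of the lattice `g ℤⁿ` -/
theorem exists_domain (g : Matrix (Fin n) (Fin n) ℝ) (hg : g.det ≠ 0) :
    ∃ (Λ : AddSubgroup (Fin n → ℝ)) (_ : Countable Λ) (s : Set (Fin n → ℝ)),
      IsAddFundamentalDomain Λ s volume ∧ MeasurableSet s ∧ volume s ≠ ⊤ ∧
      volume.real s = |g.det| ∧ ∀ x ∈ Λ, ∃ p : Fin n → ℤ, x = g.mulVec (fun j => (p j : ℝ)) := by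
  have hu : IsUnit g.transpose := by
    rw [Matrix.isUnit_iff_isUnit_det, Matrix.det_transpose]
    exact hg.isUnit
  have hli : LinearIndependent ℝ g.transpose.row := Matrix.linearIndependent_rows_iff_isUnit.mpr hu
  have hspan : ⊤ ≤ Submodule.span ℝ (Set.range g.transpose.row) :=
    (hli.span_eq_top_of_card_eq_finrank' (by simp)).ge
  let b : Module.Basis (Fin n) ℝ (Fin n → ℝ) := Module.Basis.mk hli hspan
  have hb : ∀ j, b j = fun i => g i j := by
    intro j
    have := Module.Basis.mk_apply hli hspan j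
    rw [this]
    rfl
  refine ⟨(Submodule.span ℤ (Set.range b)).toAddSubgroup, ?_, ZSpan.fundamentalDomain b,
    ZSpan.isAddFundamentalDomain' b volume, ZSpan.fundamentalDomain_measurableSet b, ?_, ?_, ?_⟩
  · exact inferInstanceAs (Countable (Submodule.span ℤ (Set.range b)))
  · rw [ZSpan.volume_fundamentalDomain]
    exact ENNReal.ofReal_ne_top
  · rw [ZSpan.volume_real_fundamentalDomain, ← Matrix.det_transpose]
    congr 2
    ext i j
    rw [Matrix.transpose_apply, Matrix.of_apply, hb]
  · intro x hx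
    have hx' : x ∈ Submodule.span ℤ (Set.range b) := hx
    rw [Submodule.mem_span_range_iff_exists_fun] at hx'
    obtain ⟨c, hc⟩ := hx'
    refine ⟨c, ?_⟩
    rw [← hc]
    ext i
    rw [Finset.sum_apply]
    simp only [Matrix.mulVec, dotProduct]
    refine sum_congr rfl fun j _ => ?_
    rw [Pi.smul_apply, hb, zsmul_eq_mul, mul_comm]

end

end Pool.Agent.TH871.LF
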