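import Pool.Agent.TH871.LF.Geo
import Pool.Agent.TH871.LF.Cover
import Pool.Agent.H703R2.LP.Cheb

open Finset MeasureTheory

namespace Pool.Agent.TH871.LF

noncomputable section

variable {h n : ℕ}

/-- product cell -/
def cell (c : Fin n → ZMod (2 * h)) : Set (Fin n → ℝ) :=
  Set.pi Set.univ fun k => Set.Ioo (lo (c k)) (hi (c k))

lemma box_spec (h2 : 2 ≤ h) (hn : 0 < n) (c : Fin n → ZMod (2 * h)) {A : ℝ} (hA : 0 < A)
    (hAc : A ≤ ∏ k, cL h (ref (c k))) :
    ∃ B : Set (Fin n → ℝ), MeasurableSet B ∧ volume.real B = A ∧ B ⊆ cell c ∧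
      ∀ x ∈ B, ∀ y ∈ B, |∏ k, (x k - y k)| ≤ A := by
  have hL : ∀ k, 0 < cL h (ref (c k)) := fun k => cL_pos h2 (ref_lt h2 _)
  have hprod : 0 < ∏ k, cL h (ref (c k)) := prod_pos fun k _ => hL k
  set R : ℝ := A / ∏ k, cL h (ref (c k)) with hR
  have hR0 : 0 < R := by positivity
  have hR1 : R ≤ 1 := by rw [hR, div_le_one hprod]; exact hAc
  let k0 : Fin n := ⟨0, hn⟩
  set ρ : Fin n → ℝ := fun k => if k = k0 then R else 1 with hρ
  have hρ0 : ∀ k, 0 < ρ k := fun k => by simp only [hρ]; split_ifs <;> [exact hR0; exact one_pos]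
  have hρ1 : ∀ k, ρ k ≤ 1 := fun k => by simp only [hρ]; split_ifs <;> [exact hR1; exact le_rfl]
  have hρp : ∏ k, ρ k = R := by simp [hρ]
  have hval : ∏ k, ρ k * cL h (ref (c k)) = A := by
    rw [prod_mul_distrib, hρp, hR]
    field_simp
  refine ⟨Set.pi Set.univ fun k => Set.Ioo (lo (c k)) (lo (c k) + ρ k * cL h (ref (c k))),
    MeasurableSet.univ_pi fun k => measurableSet_Ioo, ?_, ?_, ?_⟩
  · rw [measureReal_def, Real.volume_pi_Ioo, ENNReal.toReal_prod]
    rw [← hval]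
    refine prod_congr rfl fun k _ => ?_
    rw [add_sub_cancel_left, ENNReal.toReal_ofReal]
    have := mul_pos (hρ0 k) (hL k)
    exact this.le
  · intro x hx k hk
    have h3 := hx k hk
    refine ⟨h3.1, lt_of_lt_of_le h3.2 ?_⟩
    have h4 := hi_sub_lo (c k)
    have h5 : ρ k * cL h (ref (c k)) ≤ cL h (ref (c k)) := mul_le_of_le_one_left (hL k).le (hρ1 k)
    linarith
  · intro x hx y hy
    rw [← hval, abs_prod]
    refine prod_le_prod (fun k _ => abs_nonneg _) fun k _ => ?_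
    have h3 := hx k (Set.mem_univ k)
    have h4 := hy k (Set.mem_univ k)
    rw [abs_le]
    constructor <;> linarith [h3.1, h3.2, h4.1, h4.2]

/-- average of a function of the cell -/
def avg (h : ℕ) (F : ℕ → ℝ) : ℝ := (∑ v ∈ range h, F v) / h

lemma avg_eq (h2 : 2 ≤ h) [NeZero (2 * h)] (F : ℕ → ℝ) :
    ∑ c : ZMod (2 * h), ((2 * h : ℕ) : ℝ)⁻¹ * F (ref c) = avg h F := by
  rw [← mul_sum, sum_ref h2]
  unfold avg
  have : (h : ℝ) ≠ 0 := by
    have : h ≠ 0 := by omega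
    exact_mod_cast this
  push_cast
  field_simp

/-- variance -/
def vari (h : ℕ) (F : ℕ → ℝ) : ℝ := avg h (fun v => (F v - avg h F) ^ 2)

/-- typical vectors -/
def Typ (ε : ℝ) (c : Fin n → ZMod (2 * h)) : Prop :=
  n * (avg h (fun v => Real.log (cL h v)) - ε) ≤ ∑ k, Real.log (cL h (ref (c k))) ∧
    ∑ k, cW h (ref (c k)) ≤ n * (avg h (cW h) + ε)

open Classical in
lemma atyp (h2 : 2 ≤ h) [NeZero (2 * h)] (hn : 0 < n) {ε : ℝ} (hε : 0 < ε) :
    ∑ c ∈ univ.filter (fun c : Fin n → ZMod (2 * h) => ¬ Typ ε c), ∏ k : Fin n, ((2 * h : ℕ) : ℝ)⁻¹ ≤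
      (vari h (fun v => Real.log (cL h v)) + vari h (cW h)) / (n * ε ^ 2) := by
  have hP0 : ∀ x : ZMod (2 * h), (0 : ℝ) ≤ ((2 * h : ℕ) : ℝ)⁻¹ := fun _ => by positivity
  have hP : ∑ x : ZMod (2 * h), ((2 * h : ℕ) : ℝ)⁻¹ = 1 := by
    rw [sum_const, card_univ, ZMod.card, nsmul_eq_mul]
    exact mul_inv_cancel₀ (by exact_mod_cast NeZero.ne (2 * h))
  have key : ∀ F : ℕ → ℝ, ∑ c ∈ univ.filter (fun c : Fin n → ZMod (2 * h) =>
      n * ε ≤ |∑ k, F (ref (c k)) - n * avg h F|), ∏ k : Fin n, ((2 * h : ℕ) : ℝ)⁻¹ ≤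
      vari h F / (n * ε ^ 2) := by
    intro F
    have := Pool.Agent.H703R2.LP.cheb (X := ZMod (2 * h)) hn (fun _ => ((2 * h : ℕ) : ℝ)⁻¹) hP0 hP
      (fun c => F (ref c)) hε (univ.filter (fun c : Fin n → ZMod (2 * h) =>
      n * ε ≤ |∑ k, F (ref (c k)) - n * avg h F|)) ?_
    · beta_reduce at this
      rw [avg_eq h2 F, avg_eq h2 (fun v => (F v - avg h F) ^ 2)] at this
      exact this
    · intro x hx
      rw [mem_filter] at hx
      rw [avg_eq h2 F]
      exact hx.2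
  have h3 := key (fun v => Real.log (cL h v))
  have h4 := key (cW h)
  rw [add_div]
  refine le_trans ?_ (add_le_add h3 h4)
  refine le_trans ?_ (Finset.sum_union_inter (s₁ := univ.filter (fun c : Fin n → ZMod (2 * h) =>
      n * ε ≤ |∑ k, Real.log (cL h (ref (c k))) - n * avg h (fun v => Real.log (cL h v))|))
      (s₂ := univ.filter (fun c : Fin n → ZMod (2 * h) =>
      n * ε ≤ |∑ k, cW h (ref (c k)) - n * avg h (cW h)|))).le
  have hpos : ∀ c : Fin n → ZMod (2 * h), (0 : ℝ) ≤ ∏ k : Fin n, ((2 * h : ℕ) : ℝ)⁻¹ :=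
    fun c => prod_nonneg fun _ _ => by positivity
  refine le_trans ?_ (le_add_of_nonneg_right (sum_nonneg fun c _ => hpos c))
  refine sum_le_sum_of_subset_of_nonneg ?_ (fun c _ _ => hpos c)
  intro c hc
  rw [mem_filter] at hc
  rw [mem_union, mem_filter, mem_filter]
  by_contra hcon
  push Not at hcon
  apply hc.2
  have h5 := abs_lt.mp (hcon.1 (mem_univ c))
  have h6 := abs_lt.mp (hcon.2 (mem_univ c))
  constructor
  · have := h5.1; linarith
  · have := h6.2; linarith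

end

end Pool.Agent.TH871.LF
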