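import Mathlib

/-!
Division of the circle `ℝ ∪ {∞}`, `x = tan (θ / 2)`, into `2 h` equal arcs.
-/

open Finset Filter Topology

namespace Pool.Agent.TH871.LF

noncomputable section

/-- angle `π v / (2 h)` -/
def ang (h : ℕ) (v : ℝ) : ℝ := Real.pi * v / (2 * h)

/-- left end of the cell `v < h` -/
def cA (h v : ℕ) : ℝ := Real.tan (ang h v)

/-- right end of the cell `v < h` -/
def cB (h v : ℕ) : ℝ := if v + 1 < h then Real.tan (ang h (v + 1)) else 2 * Real.tan (ang h v)

lemma ang_nonneg (h v : ℕ) : 0 ≤ ang h v := by unfold ang; positivity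

lemma ang_lt {h v : ℕ} (hv : v < h) : ang h v < Real.pi / 2 := by
  have h0 : (0 : ℝ) < h := by exact_mod_cast (by omega : 0 < h)
  have h1 : (v : ℝ) < h := by exact_mod_cast hv
  unfold ang
  rw [div_lt_div_iff₀ (by positivity) (by norm_num)]
  nlinarith [Real.pi_pos]

lemma ang_neg_lt (h v : ℕ) : -(Real.pi / 2) < ang h v := by
  have := ang_nonneg h v
  linarith [Real.pi_pos]

lemma cos_pos {h v : ℕ} (hv : v < h) : 0 < Real.cos (ang h v) :=
  Real.cos_pos_of_mem_Ioo ⟨ang_neg_lt h v, ang_lt hv⟩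

lemma cA_nonneg {h v : ℕ} (hv : v < h) : 0 ≤ cA h v := by
  unfold cA
  exact Real.tan_nonneg_of_nonneg_of_le_pi_div_two (ang_nonneg h v) (ang_lt hv).le

lemma ang_succ (h v : ℕ) : ang h ((v : ℝ) + 1) = ang h ((v + 1 : ℕ) : ℝ) := by push_cast; rfl

lemma ang_succ' {h : ℕ} (h0 : 0 < h) (v : ℝ) : ang h (v + 1) = ang h v + Real.pi / (2 * h) := by
  unfold ang
  have : (0 : ℝ) < h := by exact_mod_cast h0
  field_simp

lemma last_eq {h : ℕ} (h2 : 2 ≤ h) : ang h ((h - 1 : ℕ) : ℝ) = Real.pi / 2 - Real.pi / (2 * h) := by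
  have h0 : (0 : ℝ) < h := by exact_mod_cast (by omega : 0 < h)
  unfold ang
  rw [Nat.cast_sub (by omega)]
  push_cast
  field_simp

lemma step_pos {h : ℕ} (h2 : 2 ≤ h) : 0 < Real.pi / (2 * h) := by
  have h0 : (0 : ℝ) < h := by exact_mod_cast (by omega : 0 < h)
  have := Real.pi_pos
  positivity

lemma step_le {h : ℕ} (h2 : 2 ≤ h) : Real.pi / (2 * h) ≤ Real.pi / 4 := by
  have h0 : (2 : ℝ) ≤ h := by exact_mod_cast h2
  have := Real.pi_pos
  exact div_le_div_of_nonneg_left this.le (by norm_num) (by linarith)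

lemma sin_pos {h : ℕ} (h2 : 2 ≤ h) : 0 < Real.sin (Real.pi / (2 * h)) :=
  Real.sin_pos_of_pos_of_lt_pi (step_pos h2) (by linarith [step_le h2, Real.pi_pos])

lemma last_cos {h : ℕ} (h2 : 2 ≤ h) :
    Real.cos (ang h ((h - 1 : ℕ) : ℝ)) = Real.sin (Real.pi / (2 * h)) := by
  rw [last_eq h2, Real.cos_pi_div_two_sub]

lemma last_tan {h : ℕ} (h2 : 2 ≤ h) :
    cA h (h - 1) = Real.cos (Real.pi / (2 * h)) / Real.sin (Real.pi / (2 * h)) := by
  unfold cA
  rw [Real.tan_eq_sin_div_cos, last_cos h2, last_eq h2, Real.sin_pi_div_two_sub]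

lemma last_ge {h : ℕ} (h2 : 2 ≤ h) : 1 ≤ cA h (h - 1) := by
  rw [last_tan h2, le_div_iff₀ (sin_pos h2), one_mul]
  have h1 : Real.sin (Real.pi / (2 * h)) ≤ Real.sin (Real.pi / 4) :=
    Real.sin_le_sin_of_le_of_le_pi_div_two (by linarith [step_pos h2, Real.pi_pos])
      (by linarith [Real.pi_pos]) (step_le h2)
  have h3 : Real.cos (Real.pi / 4) ≤ Real.cos (Real.pi / (2 * h)) :=
    Real.cos_le_cos_of_nonneg_of_le_pi (step_pos h2).le (by linarith [Real.pi_pos]) (step_le h2)
  rw [Real.sin_pi_div_four] at h1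
  rw [Real.cos_pi_div_four] at h3
  linarith

lemma cA_lt_cB {h v : ℕ} (h2 : 2 ≤ h) (hv : v < h) : cA h v < cB h v := by
  unfold cB
  split_ifs with h1
  · unfold cA
    rw [ang_succ]
    refine Real.tan_lt_tan_of_nonneg_of_lt_pi_div_two (ang_nonneg h v) (ang_lt h1) ?_
    rw [← ang_succ, ang_succ' (by omega)]
    linarith [step_pos h2]
  · have : v = h - 1 := by omega
    subst this
    have := last_ge h2
    unfold cA at this ⊢
    linarith

/-- length of the cell -/
def cL (h v : ℕ) : ℝ := cB h v - cA h v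

/-- upper bound for `log (1 + x²) / 2` on the cell -/
def cW (h v : ℕ) : ℝ := Real.log (1 + cB h v ^ 2) / 2

lemma cL_pos {h v : ℕ} (h2 : 2 ≤ h) (hv : v < h) : 0 < cL h v := sub_pos.mpr (cA_lt_cB h2 hv)

lemma cell_inner {h v : ℕ} (h2 : 2 ≤ h) (hv : v + 1 < h) :
    Real.log (cL h v) - 2 * cW h v = Real.log (Real.sin (Real.pi / (2 * h))) +
      Real.log (Real.cos (ang h ((v + 1 : ℕ) : ℝ))) - Real.log (Real.cos (ang h v)) := by
  have c1 : 0 < Real.cos (ang h v) := cos_pos (by omega)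
  have c2 : 0 < Real.cos (ang h ((v + 1 : ℕ) : ℝ)) := cos_pos hv
  have s1 := sin_pos h2
  have hL : cL h v = Real.sin (Real.pi / (2 * h)) /
      (Real.cos (ang h ((v + 1 : ℕ) : ℝ)) * Real.cos (ang h v)) := by
    unfold cL cB cA
    rw [if_pos hv, ang_succ, Real.tan_eq_sin_div_cos, Real.tan_eq_sin_div_cos,
      div_sub_div _ _ c2.ne' c1.ne']
    congr 1
    rw [← Real.sin_sub]
    congr 1
    rw [← ang_succ, ang_succ' (by omega)]
    ring
  have hW : 2 * cW h v = -2 * Real.log (Real.cos (ang h ((v + 1 : ℕ) : ℝ))) := by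
    unfold cW cB
    rw [if_pos hv, ang_succ]
    have h4 := congrArg Real.log (Real.inv_one_add_tan_sq c2.ne')
    rw [Real.log_inv, Real.log_pow] at h4
    push_cast at h4 ⊢
    linarith
  rw [hW, hL, Real.log_div s1.ne' (by positivity), Real.log_mul c2.ne' c1.ne']
  ring

lemma cell_last {h : ℕ} (h2 : 2 ≤ h) :
    Real.log (Real.sin (Real.pi / (2 * h))) - Real.log 5 ≤
      Real.log (cL h (h - 1)) - 2 * cW h (h - 1) := by
  have s1 := sin_pos h2
  have hb := last_ge h2
  have hcB : cB h (h - 1) = 2 * cA h (h - 1) := by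
    unfold cB cA
    rw [if_neg (by omega)]
  have hL : cL h (h - 1) = cA h (h - 1) := by
    unfold cL
    rw [hcB]; ring
  have hW : 2 * cW h (h - 1) = Real.log (1 + (2 * cA h (h - 1)) ^ 2) := by
    unfold cW
    rw [hcB]; ring
  set b := cA h (h - 1) with hbdef
  have hb0 : 0 < b := by linarith
  rw [hL, hW]
  have h1 : Real.log (1 + (2 * b) ^ 2) ≤ Real.log (5 * b ^ 2) :=
    Real.log_le_log (by positivity) (by nlinarith)
  rw [Real.log_mul (by norm_num) (by positivity), Real.log_pow] at h1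
  have h3 : b ≤ 1 / Real.sin (Real.pi / (2 * h)) := by
    rw [hbdef, last_tan h2]
    exact div_le_div_of_nonneg_right (Real.cos_le_one _) s1.le
  have h4 := Real.log_le_log hb0 h3
  rw [Real.log_div one_ne_zero s1.ne', Real.log_one] at h4
  push_cast at h1
  linarith

lemma sum_cells {h : ℕ} (h2 : 2 ≤ h) :
    (h + 1 : ℝ) * Real.log (Real.sin (Real.pi / (2 * h))) - Real.log 5 ≤
      ∑ v ∈ range h, (Real.log (cL h v) - 2 * cW h v) := by
  obtain ⟨k, rfl⟩ : ∃ k, h = k + 1 := ⟨h - 1, by omega⟩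
  rw [sum_range_succ]
  have h1 := cell_last h2
  simp only [Nat.add_sub_cancel] at h1
  have h3 : ∑ v ∈ range k, (Real.log (cL (k + 1) v) - 2 * cW (k + 1) v) =
      k * Real.log (Real.sin (Real.pi / (2 * (k + 1 : ℕ)))) +
      Real.log (Real.sin (Real.pi / (2 * (k + 1 : ℕ)))) := by
    have h4 : ∀ v ∈ range k, Real.log (cL (k + 1) v) - 2 * cW (k + 1) v =
        Real.log (Real.sin (Real.pi / (2 * (k + 1 : ℕ)))) +
        (Real.log (Real.cos (ang (k + 1) ((v + 1 : ℕ) : ℝ))) -
          Real.log (Real.cos (ang (k + 1) (v : ℝ)))) := by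
      intro v hv
      rw [mem_range] at hv
      rw [cell_inner h2 (by omega)]
      ring
    rw [sum_congr rfl h4, sum_add_distrib, sum_const, card_range, nsmul_eq_mul,
      Finset.sum_range_sub (fun v : ℕ => Real.log (Real.cos (ang (k + 1) (v : ℝ))))]
    have h5 := last_cos h2
    simp only [Nat.add_sub_cancel] at h5
    rw [h5]
    have h6 : ang (k + 1) ((0 : ℕ) : ℝ) = 0 := by unfold ang; simp
    rw [h6, Real.cos_zero, Real.log_one, sub_zero]
  rw [h3]
  push_cast at h1 ⊢
  linarith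

/-- the average tends to `log π` -/
theorem avg_cells {ε : ℝ} (hε : 0 < ε) : ∀ᶠ h : ℕ in atTop, 2 ≤ h ∧
    Real.log Real.pi - ε ≤ Real.log (2 * h) +
      (∑ v ∈ range h, (Real.log (cL h v) - 2 * cW h v)) / h := by
  have hl : Tendsto (fun h : ℕ => Real.log (h : ℝ) / h) atTop (𝓝 0) := by
    have := Real.isLittleO_log_id_atTop.tendsto_div_nhds_zero
    exact this.comp tendsto_natCast_atTop_atTop
  have hl5 : Tendsto (fun h : ℕ => Real.log 5 / (h : ℝ)) atTop (𝓝 0) :=
    tendsto_const_nhds.div_atTop tendsto_natCast_atTop_atTop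
  have hs : Tendsto (fun h : ℕ => (1 : ℝ) / h) atTop (𝓝 0) := tendsto_one_div_atTop_nhds_zero_nat
  have e1 := hl.eventually (Iio_mem_nhds (show (0 : ℝ) < ε / 3 by positivity))
  have e2 := hl5.eventually (Iio_mem_nhds (show (0 : ℝ) < ε / 3 by positivity))
  have e3 := hs.eventually (Iio_mem_nhds (show (0 : ℝ) < min (1/4) (ε / 12) by positivity))
  filter_upwards [e1, e2, e3, eventually_ge_atTop 2] with h h1 h3 h4 h2
  replace h1 : Real.log (h : ℝ) / h < ε / 3 := h1
  replace h3 : Real.log 5 / (h : ℝ) < ε / 3 := h3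
  replace h4 : (1 : ℝ) / h < min (1/4) (ε / 12) := h4
  refine ⟨h2, ?_⟩
  have h0 : (0 : ℝ) < h := by exact_mod_cast (by omega : 0 < h)
  have h2' : (2 : ℝ) ≤ h := by exact_mod_cast h2
  have hs0 := sin_pos h2
  have hsum := sum_cells h2
  have h5 : ((h + 1 : ℝ) * Real.log (Real.sin (Real.pi / (2 * h))) - Real.log 5) / h ≤
      (∑ v ∈ range h, (Real.log (cL h v) - 2 * cW h v)) / h :=
    div_le_div_of_nonneg_right hsum h0.le
  have h6 : ((h + 1 : ℝ) * Real.log (Real.sin (Real.pi / (2 * h))) - Real.log 5) / h =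
      Real.log (Real.sin (Real.pi / (2 * h))) + Real.log (Real.sin (Real.pi / (2 * h))) / h -
        Real.log 5 / h := by
    field_simp
  -- lower bounds for the sine
  have hx1 : Real.pi / (2 * h) ≤ 1 := by
    rw [div_le_one (by positivity)]
    linarith [Real.pi_le_four]
  have h7 : 1 / (h : ℝ) ≤ Real.sin (Real.pi / (2 * h)) := by
    have := Real.mul_le_sin (step_pos h2).le (by linarith [step_le h2, Real.pi_pos])
    calc 1 / (h : ℝ) = 2 / Real.pi * (Real.pi / (2 * h)) := by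
          have := Real.pi_pos.ne'
          field_simp
      _ ≤ _ := this
  have h8 : -Real.log h ≤ Real.log (Real.sin (Real.pi / (2 * h))) := by
    have := Real.log_le_log (by positivity) h7
    rwa [Real.log_div one_ne_zero h0.ne', Real.log_one, zero_sub] at this
  have h9 : -(ε / 3) ≤ Real.log (Real.sin (Real.pi / (2 * h))) / h := by
    have := div_le_div_of_nonneg_right h8 h0.le
    rw [neg_div] at this
    linarith
  have h10 : Real.log Real.pi - ε / 3 ≤ Real.log (2 * h) +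
      Real.log (Real.sin (Real.pi / (2 * h))) := by
    set x := Real.pi / (2 * (h : ℝ)) with hx
    have hx0 : 0 < x := step_pos h2
    have hsin := Real.sin_gt_sub_cube hx0
    have hy : x ≤ 4 / (2 * (h : ℝ)) := div_le_div_of_nonneg_right Real.pi_le_four (by positivity)
    have hy2 : 4 / (2 * (h : ℝ)) = 2 * (1 / h) := by field_simp; norm_num
    have h41 : 1 / (h : ℝ) < 1 / 4 := lt_of_lt_of_le h4 (min_le_left _ _)
    have h42 : 1 / (h : ℝ) < ε / 12 := lt_of_lt_of_le h4 (min_le_right _ _)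
    have hx2 : x < ε / 6 := by linarith
    have hx3 : x < 1 / 2 := by linarith
    have h11 : x * (1 - x / 4) ≤ Real.sin x := by
      nlinarith [mul_pos hx0 hx0, mul_pos (mul_pos hx0 hx0) (sub_pos.mpr hx3)]
    have h12 : 0 < 1 - x / 4 := by linarith
    have h13 := Real.log_le_log (by positivity) h11
    rw [Real.log_mul hx0.ne' h12.ne'] at h13
    have h14 : Real.log x = Real.log Real.pi - Real.log (2 * h) := by
      rw [hx, Real.log_div Real.pi_pos.ne' (by positivity)]
    have h15 : -(ε / 3) ≤ Real.log (1 - x / 4) := by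
      have h16 := Real.one_sub_inv_le_log_of_pos h12
      have h17 : (1 - x / 4)⁻¹ ≤ 1 + x := by
        rw [inv_le_comm₀ h12 (by linarith), inv_eq_one_div, div_le_iff₀ (by linarith)]
        nlinarith
      linarith
    linarith
  linarith

end

end Pool.Agent.TH871.LF
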