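import Pool.Agent.H390R2.LP.Iface2
import Pool.Agent.H785R2.LP.Refine

/-!
Circulant one-site states on `ZMod q` for the noncommutative linear programming bound.
-/

open Finset

namespace Pool.Agent.TH871.LF

open Pool.Agent.H390R2.LP

section

variable {q : ℕ} [NeZero q]

/-- `cos (2 π z / q)` -/
noncomputable def Cq (z : ZMod q) : ℝ := (ZMod.stdAddChar (N := q) z).re

/-- `sin (2 π z / q)` -/
noncomputable def Sq (z : ZMod q) : ℝ := (ZMod.stdAddChar (N := q) z).im

lemma C_add (z w : ZMod q) : Cq (z + w) = Cq z * Cq w - Sq z * Sq w := by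
  unfold Cq Sq; rw [AddChar.map_add_eq_mul, Complex.mul_re]

lemma S_add (z w : ZMod q) : Sq (z + w) = Cq z * Sq w + Sq z * Cq w := by
  unfold Cq Sq; rw [AddChar.map_add_eq_mul, Complex.mul_im]

lemma C_neg (z : ZMod q) : Cq (-z) = Cq z := by
  unfold Cq; rw [AddChar.map_neg_eq_conj, Complex.conj_re]

lemma S_neg (z : ZMod q) : Sq (-z) = -Sq z := by
  unfold Sq; rw [AddChar.map_neg_eq_conj, Complex.conj_im]

lemma C_sub (z w : ZMod q) : Cq (z - w) = Cq z * Cq w + Sq z * Sq w := by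
  rw [sub_eq_add_neg, C_add, C_neg, S_neg]; ring

lemma S_sub (z w : ZMod q) : Sq (z - w) = Sq z * Cq w - Cq z * Sq w := by
  rw [sub_eq_add_neg, S_add, C_neg, S_neg]; ring

lemma CS_one (z : ZMod q) : Cq z ^ 2 + Sq z ^ 2 = 1 := by
  have h := C_sub z z
  rw [sub_self] at h
  have h0 : Cq (0 : ZMod q) = 1 := by unfold Cq; rw [AddChar.map_zero_eq_one, Complex.one_re]
  rw [h0] at h
  linarith [h]

lemma sum_char (b : ZMod q) : ∑ x : ZMod q, ZMod.stdAddChar (N := q) (b * x) =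
    if b = 0 then (q : ℂ) else 0 := by
  have h := AddChar.sum_mulShift b (ZMod.isPrimitive_stdAddChar q)
  rw [ZMod.card] at h
  simp_rw [mul_comm _ b] at h
  rw [h]
  split_ifs <;> simp

lemma sum_C (b : ZMod q) : ∑ x : ZMod q, Cq (b * x) = if b = 0 then (q : ℝ) else 0 := by
  have h := congrArg Complex.re (sum_char b)
  rw [Complex.re_sum] at h
  unfold Cq
  rw [h]
  split_ifs <;> simp

lemma sum_S (b : ZMod q) : ∑ x : ZMod q, Sq (b * x) = 0 := by
  have h := congrArg Complex.im (sum_char b)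
  rw [Complex.im_sum] at h
  unfold Sq
  rw [h]
  split_ifs <;> simp

/-- Hartley basis -/
noncomputable def hart (a x : ZMod q) : ℝ := (√(q : ℝ))⁻¹ * (Cq (a * x) + Sq (a * x))

lemma q_pos : (0 : ℝ) < q := by exact_mod_cast Nat.pos_of_ne_zero (NeZero.ne q)

lemma inv_sqrt_sq : (√(q : ℝ))⁻¹ * (√(q : ℝ))⁻¹ = (q : ℝ)⁻¹ := by
  rw [← mul_inv, Real.mul_self_sqrt (q_pos (q := q)).le]

lemma hart_mul (a b x : ZMod q) : hart a x * hart b x =
    (q : ℝ)⁻¹ * (Cq ((a - b) * x) + Sq ((a + b) * x)) := by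
  unfold hart
  rw [sub_mul, add_mul, C_sub, S_add]
  have := inv_sqrt_sq (q := q)
  linear_combination ((Cq (a * x) + Sq (a * x)) * (Cq (b * x) + Sq (b * x))) * this

lemma hart_orth (a b : ZMod q) : ∑ x, hart a x * hart b x = if a = b then 1 else 0 := by
  simp_rw [hart_mul]
  rw [← mul_sum, sum_add_distrib, sum_C, sum_S, add_zero]
  by_cases h : a = b
  · rw [if_pos h, if_pos (sub_eq_zero.mpr h), inv_mul_cancel₀ (q_pos (q := q)).ne']
  · rw [if_neg h, if_neg (sub_ne_zero.mpr h), mul_zero]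

/-- `cos (m x) cas (b x)` -/
lemma C_mul_hart (m b x : ZMod q) : Cq (m * x) * hart b x =
    (1 / 2) * hart (b + m) x + (1 / 2) * hart (b - m) x := by
  unfold hart
  rw [sub_mul, add_mul, C_sub, S_add, C_add, S_sub]
  ring

/-- `sin (m x) cas (b x)` -/
lemma S_mul_hart (m b x : ZMod q) : Sq (m * x) * hart b x =
    (1 / 2) * hart (m - b) x - (1 / 2) * hart (-m - b) x := by
  unfold hart
  have h : (-m - b) * x = -((m + b) * x) := by ring
  rw [h, C_neg, S_neg, sub_mul, add_mul, C_sub, S_add, C_add, S_sub]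
  ring

/-- the test functions -/
noncomputable def ff (M : ℕ) (c : ℕ → ℝ) (i : Fin M × Bool) (x : ZMod q) : ℝ :=
  √(c i.1 / 2) * (if i.2 then Cq ((((i.1 : ℕ) + 1 : ℕ) : ZMod q) * x)
    else Sq ((((i.1 : ℕ) + 1 : ℕ) : ZMod q) * x))

lemma dist_ff (M : ℕ) (c : ℕ → ℝ) (hc : ∀ j, 0 ≤ c j) (x y : ZMod q) :
    ∑ i, (ff M c i x - ff M c i y) ^ 2 =
      ∑ j ∈ range M, c j * (1 - Cq (((j + 1 : ℕ) : ZMod q) * (x - y))) := by
  rw [Fintype.sum_prod_type, Finset.sum_range]
  refine sum_congr rfl fun j _ => ?_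
  rw [Fintype.sum_bool]
  unfold ff
  simp only [if_true, Bool.false_eq_true, if_false]
  have h2 := Real.mul_self_sqrt (show 0 ≤ c j / 2 by have := hc j; positivity)
  have hx : Cq ((((j : ℕ) + 1 : ℕ) : ZMod q) * (x - y)) =
      Cq ((((j : ℕ) + 1 : ℕ) : ZMod q) * x) * Cq ((((j : ℕ) + 1 : ℕ) : ZMod q) * y) +
      Sq ((((j : ℕ) + 1 : ℕ) : ZMod q) * x) * Sq ((((j : ℕ) + 1 : ℕ) : ZMod q) * y) := by
    rw [mul_sub, C_sub]
  rw [hx]
  have h3 := CS_one ((((j : ℕ) + 1 : ℕ) : ZMod q) * x)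
  have h4 := CS_one ((((j : ℕ) + 1 : ℕ) : ZMod q) * y)
  set C1 := Cq ((((j : ℕ) + 1 : ℕ) : ZMod q) * x)
  set S1 := Sq ((((j : ℕ) + 1 : ℕ) : ZMod q) * x)
  set C2 := Cq ((((j : ℕ) + 1 : ℕ) : ZMod q) * y)
  set S2 := Sq ((((j : ℕ) + 1 : ℕ) : ZMod q) * y)
  linear_combination ((C1 - C2) ^ 2 + (S1 - S2) ^ 2) * h2 + (c j / 2) * (h3 + h4)

/-- the circulant site -/
noncomputable def circ (lam : ZMod q → ℝ) (h0 : ∀ a, 0 ≤ lam a) (h1 : ∑ a, lam a = 1)
    (he : ∀ a, lam (-a) = lam a) : Site (ZMod q) (ZMod q) where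
  pos := id
  u := hart
  w := fun a x => if a = x then 1 else 0
  lam := lam
  g := fun _ => (q : ℝ)⁻¹
  lab := id
  u_orth := hart_orth
  w_orth := by
    intro a b
    simp
  lam_nonneg := h0
  lam_sum := h1
  w_supp := by
    intro c ω h
    have : c ≠ ω := fun h' => h h'.symm
    simp [this]
  w_diag := by
    intro c c' hcc
    have hcc' : c = c' := hcc
    subst hcc'
    simp only [mul_ite, mul_one, mul_zero, sum_ite_eq, mem_univ, if_true]
    have h2 : ∀ a : ZMod q, lam a * hart a c * hart a c =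
        (q : ℝ)⁻¹ * (lam a + lam a * Sq ((a + a) * c)) := by
      intro a
      rw [mul_assoc, hart_mul, sub_self, zero_mul]
      have : Cq (0 : ZMod q) = 1 := by unfold Cq; rw [AddChar.map_zero_eq_one, Complex.one_re]
      rw [this]; ring
    simp_rw [h2]
    rw [← mul_sum, sum_add_distrib, h1]
    have h3 : ∑ a, lam a * Sq ((a + a) * c) = 0 := by
      have h4 : ∑ a, lam a * Sq ((a + a) * c) = ∑ a, lam (-a) * Sq ((-a + -a) * c) :=
        (Equiv.sum_comp (Equiv.neg (ZMod q)) (fun a => lam a * Sq ((a + a) * c))).symm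
      have h5 : ∑ a, lam (-a) * Sq ((-a + -a) * c) = -∑ a, lam a * Sq ((a + a) * c) := by
        rw [← sum_neg_distrib]
        refine sum_congr rfl fun a _ => ?_
        rw [he, show (-a + -a) * c = -((a + a) * c) by ring, S_neg]
        ring
      linarith
    rw [h3]
    simp

variable (lam : ZMod q → ℝ) (h0 : ∀ a, 0 ≤ lam a) (h1 : ∑ a, lam a = 1)
    (he : ∀ a, lam (-a) = lam a)

lemma circ_S : (circ lam h0 h1 he).S = ∑ a, Real.negMulLog (lam a) := rfl

lemma circ_h : (circ lam h0 h1 he).h = Real.log q := by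
  unfold Site.h
  simp only [circ]
  rw [sum_const, card_univ, ZMod.card, nsmul_eq_mul, Real.negMulLog, Real.log_inv]
  have := (q_pos (q := q)).ne'
  field_simp

lemma circ_P (x : ZMod q) : (circ lam h0 h1 he).P x = (q : ℝ)⁻¹ := by
  unfold Site.P
  rw [Finset.sum_filter, Finset.sum_eq_single x]
  · exact if_pos rfl
  · intro b _ hb
    exact if_neg hb
  · intro h
    exact absurd (mem_univ x) h

omit [NeZero q] in
lemma two_mul_ne {M j : ℕ} (hj : j < M) (hM : 2 * M < q) : (2 : ZMod q) * ((j + 1 : ℕ) : ZMod q) ≠ 0 := by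
  intro h
  have h2 : ((2 * (j + 1) : ℕ) : ZMod q) = 0 := by push_cast; push_cast at h; exact h
  rw [ZMod.natCast_eq_zero_iff] at h2
  have h3 := Nat.le_of_dvd (by omega) h2
  omega

lemma mat_C (m a b : ZMod q) : ∑ x, hart a x * Cq (m * x) * hart b x =
    (1 / 2) * (if a = b + m then 1 else 0) + (1 / 2) * (if a = b - m then 1 else 0) := by
  have : ∀ x, hart a x * Cq (m * x) * hart b x =
      (1 / 2) * (hart a x * hart (b + m) x) + (1 / 2) * (hart a x * hart (b - m) x) := by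
    intro x
    rw [mul_assoc, C_mul_hart]; ring
  simp_rw [this]
  rw [sum_add_distrib, ← mul_sum, ← mul_sum, hart_orth, hart_orth]

lemma mat_S (m a b : ZMod q) : ∑ x, hart a x * Sq (m * x) * hart b x =
    (1 / 2) * (if a = m - b then 1 else 0) - (1 / 2) * (if a = -m - b then 1 else 0) := by
  have : ∀ x, hart a x * Sq (m * x) * hart b x =
      (1 / 2) * (hart a x * hart (m - b) x) - (1 / 2) * (hart a x * hart (-m - b) x) := by
    intro x
    rw [mul_assoc, S_mul_hart]; ring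
  simp_rw [this]
  rw [sum_sub_distrib, ← mul_sum, ← mul_sum, hart_orth, hart_orth]

include h0 h1 he in
/-- energy of one frequency -/
lemma freq (m : ZMod q) (hm : 2 * m ≠ 0) :
    ∑ a, ∑ b, (√(lam a) - √(lam b)) ^ 2 * (∑ x, hart a x * Cq (m * x) * hart b x) ^ 2 +
    ∑ a, ∑ b, (√(lam a) - √(lam b)) ^ 2 * (∑ x, hart a x * Sq (m * x) * hart b x) ^ 2 =
    2 * (1 - ∑ b, √(lam b) * √(lam (b + m))) := by
  have h0' : ∀ a, 0 ≤ lam a → √(lam a) ^ 2 = lam a := fun a h => Real.sq_sqrt h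
  have hA : ∀ b, ∑ a, (√(lam a) - √(lam b)) ^ 2 * (∑ x, hart a x * Cq (m * x) * hart b x) ^ 2 =
      (1 / 4) * ((√(lam (b + m)) - √(lam b)) ^ 2 + (√(lam (b - m)) - √(lam b)) ^ 2) := by
    intro b
    have hne : b + m ≠ b - m := by
      intro h
      apply hm
      have : b + m - (b - m) = 0 := sub_eq_zero.mpr h
      rw [← this]; ring
    have h2 : ∀ a, (√(lam a) - √(lam b)) ^ 2 * (∑ x, hart a x * Cq (m * x) * hart b x) ^ 2 =
        (1 / 4) * (if a = b + m then (√(lam a) - √(lam b)) ^ 2 else 0) +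
        (1 / 4) * (if a = b - m then (√(lam a) - √(lam b)) ^ 2 else 0) := by
      intro a
      rw [mat_C]
      by_cases e1 : a = b + m
      · have e2 : ¬ a = b - m := fun e => hne (e1.symm.trans e)
        simp only [e1, if_true, if_neg hne]; ring
      · by_cases e2 : a = b - m
        · simp only [e2, if_true, if_neg (Ne.symm hne)]; ring
        · simp only [if_neg e1, if_neg e2]; ring
    simp_rw [h2]
    rw [sum_add_distrib, ← mul_sum, ← mul_sum]
    simp only [sum_ite_eq', mem_univ, if_true]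
    ring
  have hB : ∀ b, ∑ a, (√(lam a) - √(lam b)) ^ 2 * (∑ x, hart a x * Sq (m * x) * hart b x) ^ 2 =
      (1 / 4) * ((√(lam (b + m)) - √(lam b)) ^ 2 + (√(lam (b - m)) - √(lam b)) ^ 2) := by
    intro b
    have hne : m - b ≠ -m - b := by
      intro h
      apply hm
      have : m - b - (-m - b) = 0 := sub_eq_zero.mpr h
      rw [← this]; ring
    have h2 : ∀ a, (√(lam a) - √(lam b)) ^ 2 * (∑ x, hart a x * Sq (m * x) * hart b x) ^ 2 =
        (1 / 4) * (if a = m - b then (√(lam a) - √(lam b)) ^ 2 else 0) +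
        (1 / 4) * (if a = -m - b then (√(lam a) - √(lam b)) ^ 2 else 0) := by
      intro a
      rw [mat_S]
      by_cases e1 : a = m - b
      · have e2 : ¬ a = -m - b := fun e => hne (e1.symm.trans e)
        simp only [e1, if_true, if_neg hne]; ring
      · by_cases e2 : a = -m - b
        · simp only [e2, if_true, if_neg (Ne.symm hne)]; ring
        · simp only [if_neg e1, if_neg e2]; ring
    simp_rw [h2]
    rw [sum_add_distrib, ← mul_sum, ← mul_sum]
    simp only [sum_ite_eq', mem_univ, if_true]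
    rw [show m - b = -(b - m) by ring, show -m - b = -(b + m) by ring, he, he]
    ring
  rw [sum_comm]
  rw [show ∑ a, ∑ b, (√(lam a) - √(lam b)) ^ 2 * (∑ x, hart a x * Sq (m * x) * hart b x) ^ 2 =
    ∑ b, ∑ a, (√(lam a) - √(lam b)) ^ 2 * (∑ x, hart a x * Sq (m * x) * hart b x) ^ 2 from sum_comm]
  simp_rw [hA, hB]
  rw [← sum_add_distrib]
  have h3 : ∑ b, (√(lam (b - m)) - √(lam b)) ^ 2 = ∑ b, (√(lam (b + m)) - √(lam b)) ^ 2 := by
    rw [← Equiv.sum_comp (Equiv.addRight m) (fun b => (√(lam (b - m)) - √(lam b)) ^ 2)]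
    refine sum_congr rfl fun b _ => ?_
    simp only [Equiv.coe_addRight, add_sub_cancel_right]
    ring
  have h4 : ∀ b, (1 / 4 : ℝ) * ((√(lam (b + m)) - √(lam b)) ^ 2 + (√(lam (b - m)) - √(lam b)) ^ 2) +
      (1 / 4) * ((√(lam (b + m)) - √(lam b)) ^ 2 + (√(lam (b - m)) - √(lam b)) ^ 2) =
      (1 / 2) * (√(lam (b + m)) - √(lam b)) ^ 2 + (1 / 2) * (√(lam (b - m)) - √(lam b)) ^ 2 := by
    intro b; ring
  simp_rw [h4]
  rw [sum_add_distrib, ← mul_sum, ← mul_sum, h3]
  have h5 : ∑ b, (√(lam (b + m)) - √(lam b)) ^ 2 =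
      ∑ b, lam (b + m) + ∑ b, lam b - 2 * ∑ b, √(lam b) * √(lam (b + m)) := by
    rw [mul_sum, ← sum_add_distrib, ← sum_sub_distrib]
    refine sum_congr rfl fun b _ => ?_
    have e1 := Real.sq_sqrt (h0 b)
    have e2 := Real.sq_sqrt (h0 (b + m))
    nlinarith [e1, e2]
  have h6 : ∑ b, lam (b + m) = 1 := by
    rw [← h1]
    exact Equiv.sum_comp (Equiv.addRight m) lam
  rw [h5, h6, h1]
  ring

lemma circ_E {M : ℕ} (hM : 2 * M < q) (c : ℕ → ℝ) (hc : ∀ j, 0 ≤ c j) :
    (circ lam h0 h1 he).E (ff M c) =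
      ∑ j ∈ range M, c j * (1 - ∑ b, √(lam b) * √(lam (b + ((j + 1 : ℕ) : ZMod q)))) := by
  rw [Pool.Agent.H785R2.LP.E_eq, Fintype.sum_prod_type, Finset.sum_range]
  refine sum_congr rfl fun j _ => ?_
  rw [Fintype.sum_bool]
  have hf := freq lam h0 h1 he (((j : ℕ) + 1 : ℕ) : ZMod q) (two_mul_ne j.2 hM)
  have h2 := Real.mul_self_sqrt (show 0 ≤ c j / 2 by have := hc j; positivity)
  have hT : ∀ a b, ∑ ω, (circ lam h0 h1 he).u a ω * ff M c (j, true) ((circ lam h0 h1 he).pos ω) *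
      (circ lam h0 h1 he).u b ω =
      √(c j / 2) * ∑ x, hart a x * Cq ((((j : ℕ) + 1 : ℕ) : ZMod q) * x) * hart b x := by
    intro a b
    rw [mul_sum]
    refine sum_congr rfl fun x _ => ?_
    simp only [circ, ff, if_true, id]
    ring
  have hF : ∀ a b, ∑ ω, (circ lam h0 h1 he).u a ω * ff M c (j, false) ((circ lam h0 h1 he).pos ω) *
      (circ lam h0 h1 he).u b ω =
      √(c j / 2) * ∑ x, hart a x * Sq ((((j : ℕ) + 1 : ℕ) : ZMod q) * x) * hart b x := by
    intro a b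
    rw [mul_sum]
    refine sum_congr rfl fun x _ => ?_
    simp only [circ, ff, Bool.false_eq_true, if_false, id]
    ring
  simp_rw [hT, hF, mul_pow]
  have hl : (circ lam h0 h1 he).lam = lam := rfl
  rw [hl]
  have h3 : ∀ (G : ZMod q → ZMod q → ℝ), ∑ a, ∑ b, (√(lam a) - √(lam b)) ^ 2 *
      (√(c j / 2) ^ 2 * G a b) = (c j / 2) * ∑ a, ∑ b, (√(lam a) - √(lam b)) ^ 2 * G a b := by
    intro G
    rw [mul_sum]
    refine sum_congr rfl fun a _ => ?_
    rw [mul_sum]
    refine sum_congr rfl fun b _ => ?_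
    rw [sq (√(c j / 2)), h2]; ring
  rw [h3, h3, ← mul_add, hf]
  ring

end

end Pool.Agent.TH871.LF
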