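import Pool.Agent.TH871.LF.Asym

open Finset Filter Topology

namespace Pool.Agent.TH871.LF

noncomputable section

lemma sum_Icc_natAbs (F : ℕ → ℝ) (J : ℕ) :
    ∑ j ∈ Icc (-(J : ℤ)) J, F j.natAbs = F 0 + 2 * ∑ k ∈ range J, F (k + 1) := by
  induction J with
  | zero => simp
  | succ J ih =>
    have h1 : Icc (-((J + 1 : ℕ) : ℤ)) ((J + 1 : ℕ) : ℤ) =
        insert ((J + 1 : ℕ) : ℤ) (insert (-((J + 1 : ℕ) : ℤ)) (Icc (-(J : ℤ)) J)) := by
      ext j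
      simp only [mem_insert, mem_Icc]
      push_cast
      omega
    rw [h1, sum_insert, sum_insert, ih, sum_range_succ]
    · have e1 : (((J + 1 : ℕ) : ℤ)).natAbs = J + 1 := by omega
      have e2 : (-((J + 1 : ℕ) : ℤ)).natAbs = J + 1 := by omega
      rw [e1, e2]; ring
    · simp only [mem_Icc]; push_cast; omega
    · simp only [mem_insert, mem_Icc]; push_cast; omega

lemma sum_Icc_int (f : ℤ → ℝ) (J m : ℕ) (hm : m ≤ 2 * J) :
    ∑ j ∈ Icc (-(J : ℤ)) ((J : ℤ) - m), f j =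
      ∑ i ∈ range (2 * J - m + 1), f ((i : ℤ) - J) := by
  refine Finset.sum_nbij' (i := fun j => (j + J).toNat) (j := fun i : ℕ => (i : ℤ) - J) ?_ ?_ ?_ ?_ ?_
  · intro j hj
    rw [mem_Icc] at hj
    rw [mem_range]
    omega
  · intro i hi
    rw [mem_range] at hi
    rw [mem_Icc]
    omega
  · intro j hj
    rw [mem_Icc] at hj
    omega
  · intro i hi
    omega
  · intro j hj
    rw [mem_Icc] at hj
    congr 1
    omega

/-- exact formula for the correlations of an even sequence -/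
lemma corr_formula (φ : ℕ → ℝ) (J m : ℕ) (hm1 : 1 ≤ m) (hm : m ≤ J) :
    ∑ j ∈ Icc (-(J : ℤ)) ((J : ℤ) - m), φ j.natAbs * φ (j + m).natAbs =
      2 * (φ 0 * φ m) + ∑ i ∈ range (m - 1), φ (i + 1) * φ (m - 1 - i) +
        2 * ∑ i ∈ range (J - m), φ (i + 1) * φ (i + 1 + m) := by
  rw [sum_Icc_int (fun j => φ j.natAbs * φ (j + m).natAbs) J m (by omega)]
  have h1 : 2 * J - m + 1 = (J - m) + (1 + ((m - 1) + (1 + (J - m)))) := by omega
  rw [h1, sum_range_add, sum_range_add, sum_range_add, sum_range_add]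
  have b1 : ∑ x ∈ range (J - m), φ ((x : ℤ) - J).natAbs * φ ((x : ℤ) - J + m).natAbs =
      ∑ i ∈ range (J - m), φ (i + 1) * φ (i + 1 + m) := by
    rw [← Finset.sum_range_reflect]
    refine sum_congr rfl fun i hi => ?_
    rw [mem_range] at hi
    have e1 : (((J - m - 1 - i : ℕ) : ℤ) - J).natAbs = i + 1 + m := by omega
    have e2 : (((J - m - 1 - i : ℕ) : ℤ) - J + m).natAbs = i + 1 := by omega
    rw [e1, e2, mul_comm]
  have b2 : ∑ x ∈ range 1, φ (((J - m + x : ℕ) : ℤ) - J).natAbs *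
      φ (((J - m + x : ℕ) : ℤ) - J + m).natAbs = φ 0 * φ m := by
    rw [sum_range_one]
    have e1 : (((J - m + 0 : ℕ) : ℤ) - J).natAbs = m := by omega
    have e2 : (((J - m + 0 : ℕ) : ℤ) - J + m).natAbs = 0 := by omega
    rw [e1, e2, mul_comm]
  have b3 : ∑ x ∈ range (m - 1), φ (((J - m + (1 + x) : ℕ) : ℤ) - J).natAbs *
      φ (((J - m + (1 + x) : ℕ) : ℤ) - J + m).natAbs =
      ∑ i ∈ range (m - 1), φ (i + 1) * φ (m - 1 - i) := by
    refine sum_congr rfl fun i hi => ?_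
    rw [mem_range] at hi
    have e1 : (((J - m + (1 + i) : ℕ) : ℤ) - J).natAbs = m - 1 - i := by omega
    have e2 : (((J - m + (1 + i) : ℕ) : ℤ) - J + m).natAbs = i + 1 := by omega
    rw [e1, e2, mul_comm]
  have b4 : ∑ x ∈ range 1, φ (((J - m + (1 + (m - 1 + x)) : ℕ) : ℤ) - J).natAbs *
      φ (((J - m + (1 + (m - 1 + x)) : ℕ) : ℤ) - J + m).natAbs = φ 0 * φ m := by
    rw [sum_range_one]
    have e1 : (((J - m + (1 + (m - 1 + 0)) : ℕ) : ℤ) - J).natAbs = 0 := by omega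
    have e2 : (((J - m + (1 + (m - 1 + 0)) : ℕ) : ℤ) - J + m).natAbs = m := by omega
    rw [e1, e2]
  have b5 : ∑ x ∈ range (J - m), φ (((J - m + (1 + (m - 1 + (1 + x))) : ℕ) : ℤ) - J).natAbs *
      φ (((J - m + (1 + (m - 1 + (1 + x))) : ℕ) : ℤ) - J + m).natAbs =
      ∑ i ∈ range (J - m), φ (i + 1) * φ (i + 1 + m) := by
    refine sum_congr rfl fun i hi => ?_
    rw [mem_range] at hi
    have e1 : (((J - m + (1 + (m - 1 + (1 + i))) : ℕ) : ℤ) - J).natAbs = i + 1 := by omega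
    have e2 : (((J - m + (1 + (m - 1 + (1 + i))) : ℕ) : ℤ) - J + m).natAbs = i + 1 + m := by omega
    rw [e1, e2]
  rw [b1, b2, b3, b4, b5]
  ring

/-- harmonic numbers -/
def Hn (k : ℕ) : ℝ := ∑ i ∈ range k, 1 / ((i : ℝ) + 1)

lemma Hn_succ (k : ℕ) : Hn (k + 1) = Hn k + 1 / ((k : ℝ) + 1) := by
  unfold Hn; rw [sum_range_succ]

lemma Hn_nonneg (k : ℕ) : 0 ≤ Hn k := sum_nonneg fun _ _ => by positivity

lemma Hn_pair (m : ℕ) (hm : 0 < m) (n : ℕ) :
    ∑ i ∈ range n, 1 / (((i : ℝ) + 1) * ((i : ℝ) + 1 + m)) = (Hn n + Hn m - Hn (n + m)) / m := by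
  have hm' : (0 : ℝ) < m := by exact_mod_cast hm
  induction n with
  | zero => simp [Hn]
  | succ n ih =>
    rw [sum_range_succ, ih, Hn_succ, show n + 1 + m = (n + m) + 1 by ring, Hn_succ]
    push_cast
    field_simp
    ring

lemma Hn_diff (n m : ℕ) : Hn (n + m) - Hn n ≤ m / ((n : ℝ) + 1) := by
  induction m with
  | zero => simp
  | succ m ih =>
    rw [← add_assoc, Hn_succ]
    push_cast
    have h1 : 1 / ((n : ℝ) + m + 1) ≤ 1 / ((n : ℝ) + 1) :=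
      one_div_le_one_div_of_le (by positivity) (by linarith [(Nat.cast_nonneg m : (0 : ℝ) ≤ m)])
    have h2 : ((m : ℝ) + 1) / ((n : ℝ) + 1) = m / ((n : ℝ) + 1) + 1 / ((n : ℝ) + 1) := by ring
    rw [h2]
    linarith

lemma Hn_refl (k : ℕ) : ∑ i ∈ range k, 1 / (((i : ℝ) + 1) * ((k - i : ℕ) : ℝ)) =
    2 * Hn k / ((k : ℝ) + 1) := by
  have h1 : ∀ i ∈ range k, 1 / (((i : ℝ) + 1) * ((k - i : ℕ) : ℝ)) =
      (1 / ((i : ℝ) + 1) + 1 / ((k - i : ℕ) : ℝ)) / ((k : ℝ) + 1) := by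
    intro i hi
    rw [mem_range] at hi
    have h2 : ((k - i : ℕ) : ℝ) = k - i := by rw [Nat.cast_sub hi.le]
    have h3 : (0 : ℝ) < (k : ℝ) - i := by
      have : (i : ℝ) < k := by exact_mod_cast hi
      linarith
    rw [h2]
    field_simp
    ring
  rw [sum_congr rfl h1, ← sum_div, sum_add_distrib]
  have h4 : ∑ i ∈ range k, 1 / ((k - i : ℕ) : ℝ) = Hn k := by
    unfold Hn
    rw [← Finset.sum_range_reflect (fun i : ℕ => 1 / ((i : ℝ) + 1))]
    refine sum_congr rfl fun i hi => ?_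
    rw [mem_range] at hi
    have : ((k - i : ℕ) : ℝ) = ((k - 1 - i : ℕ) : ℝ) + 1 := by
      have : k - i = (k - 1 - i) + 1 := by omega
      rw [this]; push_cast; ring
    rw [this]
  rw [h4]
  unfold Hn
  ring

/-- the amplitudes `1, 1/(5k)` -/
def ph (k : ℕ) : ℝ := if k = 0 then 1 else 1 / (5 * (k : ℝ))

lemma ph_zero : ph 0 = 1 := by simp [ph]
lemma ph_succ (k : ℕ) : ph (k + 1) = 1 / (5 * ((k : ℝ) + 1)) := by
  unfold ph; rw [if_neg (by omega)]; push_cast; rfl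
lemma ph_pos (k : ℕ) : 0 < ph k := by
  unfold ph; split_ifs with h
  · norm_num
  · have : (0 : ℝ) < k := by exact_mod_cast Nat.pos_of_ne_zero h
    positivity

lemma corr_ph (J k : ℕ) (hk : k + 1 ≤ J) :
    2 / 5 / ((k : ℝ) + 1) + 2 / 25 * (Hn k + Hn (k + 1)) / ((k : ℝ) + 1) - 2 / 25 / ((J - k : ℕ) : ℝ) ≤
    ∑ j ∈ Icc (-(J : ℤ)) ((J : ℤ) - ((k + 1 : ℕ) : ℤ)), ph j.natAbs * ph (j + ((k + 1 : ℕ) : ℤ)).natAbs := by
  rw [corr_formula ph J (k + 1) (by omega) hk, Nat.add_sub_cancel, ph_zero, ph_succ]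
  have h1 : ∑ i ∈ range k, ph (i + 1) * ph (k - i) = 1 / 25 * (2 * Hn k / ((k : ℝ) + 1)) := by
    rw [← Hn_refl, mul_sum]
    refine sum_congr rfl fun i hi => ?_
    rw [mem_range] at hi
    rw [ph_succ]
    unfold ph
    rw [if_neg (by omega)]
    have h3 : ((k - i : ℕ) : ℝ) ≠ 0 := by
      have : k - i ≠ 0 := by omega
      exact_mod_cast this
    field_simp
    norm_num
  have h2 : ∑ i ∈ range (J - (k + 1)), ph (i + 1) * ph (i + 1 + (k + 1)) =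
      1 / 25 * ((Hn (J - (k + 1)) + Hn (k + 1) - Hn (J - (k + 1) + (k + 1))) / ((k + 1 : ℕ) : ℝ)) := by
    rw [← Hn_pair (k + 1) (by omega), mul_sum]
    refine sum_congr rfl fun i _ => ?_
    rw [ph_succ, show i + 1 + (k + 1) = (i + 1 + k) + 1 by ring, ph_succ]
    push_cast
    field_simp
    ring
  have h3 := Hn_diff (J - (k + 1)) (k + 1)
  have h4 : ((J - (k + 1) : ℕ) : ℝ) + 1 = ((J - k : ℕ) : ℝ) := by
    have : J - k = J - (k + 1) + 1 := by omega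
    rw [this]; push_cast; ring
  rw [h4] at h3
  rw [h1, h2]
  have hk0 : (0 : ℝ) < (k : ℝ) + 1 := by positivity
  have h5 : (Hn (k + 1) - ((k + 1 : ℕ) : ℝ) / ((J - k : ℕ) : ℝ)) / ((k + 1 : ℕ) : ℝ) ≤
      (Hn (J - (k + 1)) + Hn (k + 1) - Hn (J - (k + 1) + (k + 1))) / ((k + 1 : ℕ) : ℝ) := by
    refine div_le_div_of_nonneg_right ?_ (by positivity)
    linarith
  have h6 : (Hn (k + 1) - ((k + 1 : ℕ) : ℝ) / ((J - k : ℕ) : ℝ)) / ((k + 1 : ℕ) : ℝ) =
      Hn (k + 1) / ((k : ℝ) + 1) - 1 / ((J - k : ℕ) : ℝ) := by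
    have h7 : ((J - k : ℕ) : ℝ) ≠ 0 := by
      have : J - k ≠ 0 := by omega
      exact_mod_cast this
    push_cast
    field_simp
  rw [h6] at h5
  have e1 : 2 / 25 * (Hn k + Hn (k + 1)) / ((k : ℝ) + 1) =
      1 / 25 * (2 * Hn k / ((k : ℝ) + 1)) + 2 / 25 * (Hn (k + 1) / ((k : ℝ) + 1)) := by ring
  have e2 : 2 / 25 / ((J - k : ℕ) : ℝ) = 2 / 25 * (1 / ((J - k : ℕ) : ℝ)) := by ring
  have e3 : 2 * (1 * (1 / (5 * ((k : ℝ) + 1)))) = 2 / 5 / ((k : ℝ) + 1) := by field_simp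
  rw [e1, e2, e3]
  linarith

end

end Pool.Agent.TH871.LF
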