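import Mathlib

open Finset

namespace Pool.Agent.TH871.LF

lemma norm_one_sub (r θ : ℝ) : ‖(1 : ℂ) - r * Complex.exp (θ * Complex.I)‖ ^ 2 =
    (1 - r) ^ 2 + r * (2 * Real.sin (θ / 2)) ^ 2 := by
  rw [Complex.sq_norm, Complex.normSq_apply]
  have hre : ((1 : ℂ) - r * Complex.exp (θ * Complex.I)).re = 1 - r * Real.cos θ := by
    simp [Complex.exp_re]
  have him : ((1 : ℂ) - r * Complex.exp (θ * Complex.I)).im = - (r * Real.sin θ) := by
    simp [Complex.exp_im]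
  rw [hre, him]
  have h1 := Real.sin_sq_add_cos_sq θ
  have h2 : Real.cos θ = 1 - 2 * Real.sin (θ / 2) ^ 2 := by
    have := Real.cos_two_mul (θ / 2)
    have h3 := Real.sin_sq_add_cos_sq (θ / 2)
    rw [show 2 * (θ / 2) = θ by ring] at this
    linarith
  linear_combination r ^ 2 * h1 - 2 * r * h2

lemma log_norm_ge {r θ : ℝ} (h0 : 0 < r) (hθ : Real.sin (θ / 2) ≠ 0) :
    Real.log r / 2 + Real.log |2 * Real.sin (θ / 2)| ≤
      Real.log ‖(1 : ℂ) - r * Complex.exp (θ * Complex.I)‖ := by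
  have h2 : 0 < |2 * Real.sin (θ / 2)| := abs_pos.mpr (mul_ne_zero two_ne_zero hθ)
  have h3 : r * |2 * Real.sin (θ / 2)| ^ 2 ≤ ‖(1 : ℂ) - r * Complex.exp (θ * Complex.I)‖ ^ 2 := by
    rw [norm_one_sub, sq_abs]
    nlinarith [sq_nonneg (1 - r)]
  have h4 := Real.log_le_log (by positivity) h3
  rw [Real.log_mul h0.ne' (by positivity), Real.log_pow, Real.log_pow] at h4
  push_cast at h4
  linarith

theorem trig_upper {r : ℝ} (h0 : 0 < r) (h1 : r < 1) (M : ℕ) {θ : ℝ} (hθ : Real.sin (θ / 2) ≠ 0) :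
    ∑ j ∈ range M, r ^ (j + 1) / ((j : ℝ) + 1) * Real.cos (((j : ℝ) + 1) * θ) ≤
      -Real.log |2 * Real.sin (θ / 2)| - Real.log r / 2 + r ^ (M + 1) / (1 - r) := by
  set z : ℂ := r * Complex.exp (θ * Complex.I) with hz
  have hz1 : ‖z‖ < 1 := by
    rw [hz, norm_mul, Complex.norm_exp_ofReal_mul_I, mul_one, Complex.norm_real, Real.norm_eq_abs,
      abs_of_pos h0]
    exact h1
  have hs := Complex.hasSum_taylorSeries_neg_log hz1
  have hre := Complex.hasSum_re hs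
  have hterm : ∀ n : ℕ, (z ^ n / (n : ℂ)).re = r ^ n / n * Real.cos (n * θ) := by
    intro n
    rw [hz, mul_pow, ← Complex.exp_nat_mul, ← Complex.ofReal_pow]
    have : (n : ℂ) * (θ * Complex.I) = ((n * θ : ℝ) : ℂ) * Complex.I := by push_cast; ring
    rw [this]
    rw [show ((r ^ n : ℝ) : ℂ) * Complex.exp (((n * θ : ℝ) : ℂ) * Complex.I) / (n : ℂ) =
      ((r ^ n / n : ℝ) : ℂ) * Complex.exp (((n * θ : ℝ) : ℂ) * Complex.I) by push_cast; ring]
    rw [Complex.re_ofReal_mul, Complex.exp_ofReal_mul_I_re]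
  simp_rw [hterm] at hre
  have hval : (-Complex.log (1 - z)).re = -Real.log ‖1 - z‖ := by
    rw [Complex.neg_re, Complex.log_re]
  rw [hval] at hre
  -- geometric tail
  set f : ℕ → ℝ := fun n => r ^ n / n * Real.cos (n * θ) with hf
  have hsum : Summable f := hre.summable
  have hgeo : Summable (fun n : ℕ => r ^ n) := summable_geometric_of_lt_one h0.le h1
  have hsplit := hsum.sum_add_tsum_nat_add (M + 1)
  rw [hre.tsum_eq] at hsplit
  have hs1 : Summable (fun i => f (i + (M + 1))) := (summable_nat_add_iff (M + 1)).mpr hsum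
  have hs2 : Summable (fun i : ℕ => -(r ^ (M + 1) * r ^ i)) := (hgeo.mul_left _).neg
  have htail : -(r ^ (M + 1) / (1 - r)) ≤ ∑' i : ℕ, f (i + (M + 1)) := by
    have hg : ∑' i : ℕ, -(r ^ (M + 1) * r ^ i) = -(r ^ (M + 1) / (1 - r)) := by
      rw [tsum_neg, tsum_mul_left, tsum_geometric_of_lt_one h0.le h1, div_eq_mul_inv]
    rw [← hg]
    refine Summable.tsum_le_tsum (fun i => ?_) hs2 hs1
    have hc : (1 : ℝ) ≤ ((i + (M + 1) : ℕ) : ℝ) := by
      have : 1 ≤ i + (M + 1) := by omega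
      exact_mod_cast this
    have hp : 0 < r ^ (i + (M + 1)) := by positivity
    have h5 : r ^ (i + (M + 1)) / ((i + (M + 1) : ℕ) : ℝ) ≤ r ^ (i + (M + 1)) :=
      div_le_self hp.le hc
    have h6 := Real.neg_one_le_cos (((i + (M + 1) : ℕ) : ℝ) * θ)
    have h7 : 0 ≤ r ^ (i + (M + 1)) / ((i + (M + 1) : ℕ) : ℝ) := by positivity
    have h8 : r ^ (M + 1) * r ^ i = r ^ (i + (M + 1)) := by rw [← pow_add, add_comm]
    rw [h8]
    show -(r ^ (i + (M + 1))) ≤ r ^ (i + (M + 1)) / ((i + (M + 1) : ℕ) : ℝ) *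
      Real.cos (((i + (M + 1) : ℕ) : ℝ) * θ)
    nlinarith
  have h9 : ∑ i ∈ range (M + 1), f i =
      ∑ j ∈ range M, r ^ (j + 1) / ((j : ℝ) + 1) * Real.cos (((j : ℝ) + 1) * θ) := by
    rw [Finset.sum_range_succ']
    have : f 0 = 0 := by simp [hf]
    rw [this, add_zero]
    refine sum_congr rfl fun j _ => ?_
    simp only [hf]
    push_cast
    rfl
  rw [h9] at hsplit
  have hlog := log_norm_ge (θ := θ) h0 hθ
  rw [← hz] at hlog
  linarith

theorem trig_lip {r : ℝ} (h0 : 0 < r) (h1 : r < 1) (M : ℕ) (θ φ : ℝ) :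
    ∑ j ∈ range M, r ^ (j + 1) / ((j : ℝ) + 1) * Real.cos (((j : ℝ) + 1) * φ) ≤
    ∑ j ∈ range M, r ^ (j + 1) / ((j : ℝ) + 1) * Real.cos (((j : ℝ) + 1) * θ) + M * |θ - φ| := by
  have : (M : ℝ) * |θ - φ| = ∑ j ∈ range M, |θ - φ| := by simp
  rw [this, ← sum_add_distrib]
  refine sum_le_sum fun j _ => ?_
  have h2 := Real.abs_cos_sub_cos_le (((j : ℝ) + 1) * φ) (((j : ℝ) + 1) * θ)
  rw [← mul_sub, abs_mul, abs_of_pos (by positivity : (0 : ℝ) < (j : ℝ) + 1), abs_sub_comm φ θ] at h2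
  have h3 := (abs_le.mp h2).2
  have h4 : 0 ≤ r ^ (j + 1) / ((j : ℝ) + 1) := by positivity
  have h5 : r ^ (j + 1) / ((j : ℝ) + 1) * (((j : ℝ) + 1) * |θ - φ|) = r ^ (j + 1) * |θ - φ| := by
    field_simp
  have h6 : r ^ (j + 1) ≤ 1 := pow_le_one₀ h0.le h1.le
  have h7 := mul_le_mul_of_nonneg_left h3 h4
  have h8 : r ^ (j + 1) * |θ - φ| ≤ 1 * |θ - φ| := mul_le_mul_of_nonneg_right h6 (abs_nonneg _)
  rw [h5] at h7
  linarith

end Pool.Agent.TH871.LF
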