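import Pool.Agent.TH871.LF.Circ
import Pool.Agent.TH871.LF.Trig
import Pool.Agent.TH871.LF.Cells

open Finset

namespace Pool.Agent.TH871.LF

noncomputable section

variable {h : ℕ}

/-- reflected index of a cell -/
def ref (c : ZMod (2 * h)) : ℕ := if c.val < h then c.val else 2 * h - 1 - c.val

def lo (c : ZMod (2 * h)) : ℝ := if c.val < h then cA h c.val else -cB h (2 * h - 1 - c.val)

def hi (c : ZMod (2 * h)) : ℝ := if c.val < h then cB h c.val else -cA h (2 * h - 1 - c.val)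

lemma val_lt' (h2 : 2 ≤ h) (c : ZMod (2 * h)) : c.val < 2 * h := by
  have : NeZero (2 * h) := ⟨by omega⟩
  exact ZMod.val_lt c

lemma ref_lt (h2 : 2 ≤ h) (c : ZMod (2 * h)) : ref c < h := by
  have := val_lt' h2 c
  unfold ref
  split_ifs <;> omega

lemma hi_sub_lo (c : ZMod (2 * h)) : hi c - lo c = cL h (ref c) := by
  unfold hi lo ref cL
  split_ifs <;> ring

lemma lo_lt_hi (h2 : 2 ≤ h) (c : ZMod (2 * h)) : lo c < hi c := by
  have := cL_pos h2 (ref_lt h2 c)
  rw [← hi_sub_lo] at this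
  linarith

lemma wt_bound (h2 : 2 ≤ h) (c : ZMod (2 * h)) {x : ℝ} (hx : x ∈ Set.Ioo (lo c) (hi c)) :
    Real.log (1 + x ^ 2) / 2 ≤ cW h (ref c) := by
  have hr := ref_lt h2 c
  have hA := cA_nonneg hr
  have key : x ^ 2 ≤ cB h (ref c) ^ 2 := by
    unfold lo hi at hx
    unfold ref at hr hA ⊢
    split_ifs at hx hr hA ⊢ with h1
    · exact pow_le_pow_left₀ (by linarith [hx.1]) hx.2.le 2
    · have : x ^ 2 = (-x) ^ 2 := by ring
      rw [this]
      exact pow_le_pow_left₀ (by linarith [hx.2]) (by linarith [hx.1]) 2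
  unfold cW
  have := Real.log_le_log (by positivity) (by linarith : 1 + x ^ 2 ≤ 1 + cB h (ref c) ^ 2)
  linarith

lemma ang_mem {v : ℕ} (hv : v < h) : ang h v ∈ Set.Ioo (-(Real.pi / 2)) (Real.pi / 2) :=
  ⟨ang_neg_lt h v, ang_lt hv⟩

lemma angle_pos (h2 : 2 ≤ h) {v : ℕ} (hv : v < h) {x : ℝ} (hx : x ∈ Set.Ioo (cA h v) (cB h v)) :
    ang h v < Real.arctan x ∧ Real.arctan x < ang h ((v : ℝ) + 1) := by
  constructor
  · have h1 : Real.arctan (cA h v) < Real.arctan x := Real.arctan_strictMono hx.1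
    unfold cA at h1
    rwa [Real.arctan_tan (ang_mem hv).1 (ang_mem hv).2] at h1
  · by_cases h3 : v + 1 < h
    · have h1 : Real.arctan x < Real.arctan (cB h v) := Real.arctan_strictMono hx.2
      unfold cB at h1
      rw [if_pos h3, ang_succ, Real.arctan_tan (ang_mem h3).1 (ang_mem h3).2] at h1
      rw [ang_succ]
      exact h1
    · have h4 : v + 1 = h := by omega
      have h5 : ang h ((v : ℝ) + 1) = Real.pi / 2 := by
        rw [ang_succ, h4]
        unfold ang
        have : (h : ℝ) ≠ 0 := by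
          have : h ≠ 0 := by omega
          exact_mod_cast this
        field_simp
      rw [h5]
      exact Real.arctan_lt_pi_div_two x

lemma angle (h2 : 2 ≤ h) (c : ZMod (2 * h)) {x : ℝ} (hx : x ∈ Set.Ioo (lo c) (hi c)) :
    ∃ v : ℤ, (v : ZMod (2 * h)) = c ∧ ang h v < Real.arctan x ∧ Real.arctan x < ang h ((v : ℝ) + 1) := by
  have : NeZero (2 * h) := ⟨by omega⟩
  have hr := ref_lt h2 c
  have hval := val_lt' h2 c
  unfold lo hi at hx
  unfold ref at hr
  split_ifs at hx hr with h1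
  · refine ⟨(c.val : ℤ), ?_, ?_⟩
    · rw [Int.cast_natCast, ZMod.natCast_zmod_val]
    · have := angle_pos h2 hr hx
      exact_mod_cast this
  · refine ⟨(c.val : ℤ) - (2 * h : ℕ), ?_, ?_⟩
    · push_cast
      rw [ZMod.natCast_zmod_val]
      have : ((2 * h : ℕ) : ZMod (2 * h)) = 0 := ZMod.natCast_self _
      push_cast at this
      rw [this, sub_zero]
    · have hx' : -x ∈ Set.Ioo (cA h (2 * h - 1 - c.val)) (cB h (2 * h - 1 - c.val)) :=
        ⟨by linarith [hx.2], by linarith [hx.1]⟩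
      have h3 := angle_pos h2 hr hx'
      rw [Real.arctan_neg] at h3
      have h0 : (h : ℝ) ≠ 0 := by
        have : h ≠ 0 := by omega
        exact_mod_cast this
      have h4 : ((2 * h - 1 - c.val : ℕ) : ℝ) = 2 * h - 1 - c.val := by
        rw [Nat.cast_sub (by omega), Nat.cast_sub (by omega)]
        push_cast; ring
      rw [h4] at h3
      unfold ang at h3 ⊢
      push_cast
      constructor
      · have : Real.pi * ((c.val : ℝ) - 2 * h) / (2 * h) =
            -(Real.pi * (2 * h - 1 - c.val + 1) / (2 * h)) := by ring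
        rw [this]; linarith [h3.2]
      · have : Real.pi * ((c.val : ℝ) - 2 * h + 1) / (2 * h) =
            -(Real.pi * (2 * h - 1 - c.val) / (2 * h)) := by ring
        rw [this]; linarith [h3.1]

lemma ang_lt_iff (h2 : 2 ≤ h) {a b : ℝ} (hab : ang h a < ang h b) : a < b := by
  unfold ang at hab
  have h0 : (0 : ℝ) < h := by
    have : 0 < h := by omega
    exact_mod_cast this
  rw [div_lt_div_iff_of_pos_right (by positivity)] at hab
  exact lt_of_mul_lt_mul_left hab Real.pi_pos.le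

/-- different cells are disjoint -/
lemma cell_unique (h2 : 2 ≤ h) {c c' : ZMod (2 * h)} {x : ℝ} (hx : x ∈ Set.Ioo (lo c) (hi c))
    (hx' : x ∈ Set.Ioo (lo c') (hi c')) : c = c' := by
  obtain ⟨v, hv, h3, h4⟩ := angle h2 c hx
  obtain ⟨v', hv', h5, h6⟩ := angle h2 c' hx'
  have a1 := ang_lt_iff h2 (h3.trans h6)
  have a2 := ang_lt_iff h2 (h5.trans h4)
  have b1 : v < v' + 1 := by exact_mod_cast a1
  have b2 : v' < v + 1 := by exact_mod_cast a2
  have : v = v' := by omega
  rw [← hv, ← hv', this]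

lemma sum_ref (h2 : 2 ≤ h) (F : ℕ → ℝ) [NeZero (2 * h)] :
    ∑ c : ZMod (2 * h), F (ref c) = 2 * ∑ v ∈ range h, F v := by
  have h3 : ∑ c : ZMod (2 * h), F (ref c) =
      ∑ i ∈ range (2 * h), F (if i < h then i else 2 * h - 1 - i) := by
    refine Finset.sum_nbij' (i := ZMod.val) (j := fun v : ℕ => (v : ZMod (2 * h))) ?_ ?_ ?_ ?_ ?_
    · intro c _; exact mem_range.mpr (ZMod.val_lt c)
    · intro v _; exact mem_univ _
    · intro c _; exact ZMod.natCast_zmod_val c
    · intro v hv; exact ZMod.val_cast_of_lt (mem_range.mp hv)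
    · intro c _; rfl
  rw [h3, two_mul h, Finset.sum_range_add, two_mul]
  congr 1
  · refine sum_congr rfl fun i hi => ?_
    rw [if_pos (mem_range.mp hi)]
  · rw [← Finset.sum_range_reflect (fun v => F v) h]
    refine sum_congr rfl fun i hi => ?_
    rw [mem_range] at hi
    rw [if_neg (by omega)]
    congr 1
    omega

lemma Cq_int [NeZero (2 * h)] (j : ℕ) (v v' : ℤ) :
    Cq (((j + 1 : ℕ) : ZMod (2 * h)) * ((v : ZMod (2 * h)) - (v' : ZMod (2 * h)))) =
      Real.cos (((j : ℝ) + 1) * (2 * (ang h v - ang h v'))) := by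
  have h0 : (h : ℝ) ≠ 0 := by
    have : 2 * h ≠ 0 := NeZero.ne _
    have : h ≠ 0 := by omega
    exact_mod_cast this
  have e : ((j + 1 : ℕ) : ZMod (2 * h)) * ((v : ZMod (2 * h)) - (v' : ZMod (2 * h))) =
      (((((j + 1 : ℕ) : ℤ) * (v - v') : ℤ)) : ZMod (2 * h)) := by push_cast; ring
  unfold Cq
  rw [e, ZMod.stdAddChar_coe]
  have e2 : (2 * Real.pi * Complex.I * ((((j + 1 : ℕ) : ℤ) * (v - v') : ℤ) : ℂ) / ((2 * h : ℕ) : ℂ)) =
      ((((j : ℝ) + 1) * (2 * (ang h v - ang h v')) : ℝ) : ℂ) * Complex.I := by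
    unfold ang
    have h0' : (h : ℂ) ≠ 0 := by exact_mod_cast h0
    push_cast
    field_simp
  rw [e2, Complex.exp_ofReal_mul_I_re]

lemma sin_arctan_sub (x y : ℝ) : Real.sin (Real.arctan x - Real.arctan y) =
    (x - y) / (√(1 + x ^ 2) * √(1 + y ^ 2)) := by
  rw [Real.sin_sub, Real.sin_arctan, Real.cos_arctan, Real.sin_arctan, Real.cos_arctan]
  have h1 : √(1 + x ^ 2) ≠ 0 := by positivity
  have h2 : √(1 + y ^ 2) ≠ 0 := by positivity
  field_simp

lemma log_sin_arctan {x y : ℝ} (hxy : x ≠ y) :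
    Real.log |2 * Real.sin (Real.arctan x - Real.arctan y)| =
      Real.log 2 + Real.log |x - y| - Real.log (1 + x ^ 2) / 2 - Real.log (1 + y ^ 2) / 2 := by
  rw [sin_arctan_sub, abs_mul, abs_two, abs_div, abs_of_pos (by positivity : 0 < √(1 + x ^ 2) * √(1 + y ^ 2))]
  have h1 : √(1 + x ^ 2) ≠ 0 := by positivity
  have h2 : √(1 + y ^ 2) ≠ 0 := by positivity
  have h3 : |x - y| ≠ 0 := abs_ne_zero.mpr (sub_ne_zero.mpr hxy)
  rw [Real.log_mul two_ne_zero (by positivity), Real.log_div h3 (by positivity), Real.log_mul h1 h2,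
    Real.log_sqrt (by positivity), Real.log_sqrt (by positivity)]
  ring

/-- the main geometric inequality -/
theorem geo (h2 : 2 ≤ h) [NeZero (2 * h)] {r : ℝ} (h0 : 0 < r) (h1 : r < 1) (M : ℕ)
    {c c' : ZMod (2 * h)} {x y : ℝ} (hx : x ∈ Set.Ioo (lo c) (hi c))
    (hy : y ∈ Set.Ioo (lo c') (hi c')) (hxy : x ≠ y) :
    ∑ j ∈ range M, r ^ (j + 1) / ((j : ℝ) + 1) * Cq (((j + 1 : ℕ) : ZMod (2 * h)) * (c - c')) ≤
      -Real.log 2 - Real.log |x - y| + cW h (ref c) + cW h (ref c') - Real.log r / 2 +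
        r ^ (M + 1) / (1 - r) + M * (Real.pi / h) := by
  obtain ⟨v, hv, h3, h4⟩ := angle h2 c hx
  obtain ⟨v', hv', h5, h6⟩ := angle h2 c' hy
  have hw := wt_bound h2 c hx
  have hw' := wt_bound h2 c' hy
  have hne : Real.sin ((2 * (Real.arctan x - Real.arctan y)) / 2) ≠ 0 := by
    rw [show (2 * (Real.arctan x - Real.arctan y)) / 2 = Real.arctan x - Real.arctan y by ring,
      sin_arctan_sub]
    exact div_ne_zero (sub_ne_zero.mpr hxy) (by positivity)
  have t1 := trig_upper h0 h1 M hne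
  rw [show (2 * (Real.arctan x - Real.arctan y)) / 2 = Real.arctan x - Real.arctan y by ring,
    log_sin_arctan hxy] at t1
  have t2 := trig_lip h0 h1 M (2 * (Real.arctan x - Real.arctan y)) (2 * (ang h v - ang h v'))
  have h00 : 0 < h := by omega
  have e1 := ang_succ' h00 (v : ℝ)
  have e2 := ang_succ' h00 (v' : ℝ)
  rw [e1] at h4
  rw [e2] at h6
  have h0' : (0 : ℝ) < h := by exact_mod_cast h00
  have t3 : |2 * (Real.arctan x - Real.arctan y) - 2 * (ang h v - ang h v')| ≤ Real.pi / h := by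
    have e3 : Real.pi / (h : ℝ) = 2 * (Real.pi / (2 * h)) := by field_simp
    rw [e3, abs_le]
    constructor <;> linarith
  have t4 : (M : ℝ) * |2 * (Real.arctan x - Real.arctan y) - 2 * (ang h v - ang h v')| ≤
      M * (Real.pi / h) := mul_le_mul_of_nonneg_left t3 (by positivity)
  have t5 : ∑ j ∈ range M, r ^ (j + 1) / ((j : ℝ) + 1) *
      Cq (((j + 1 : ℕ) : ZMod (2 * h)) * (c - c')) =
      ∑ j ∈ range M, r ^ (j + 1) / ((j : ℝ) + 1) *
        Real.cos (((j : ℝ) + 1) * (2 * (ang h v - ang h v'))) := by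
    refine sum_congr rfl fun j _ => ?_
    rw [← hv, ← hv', Cq_int]
  rw [t5]
  linarith

end

end Pool.Agent.TH871.LF
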