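import Pool.Agent.TH871.LF.Corr

open Finset Filter Topology

namespace Pool.Agent.TH871.LF

noncomputable section

lemma log_le_of_sum {x y : ℝ} (hx : 0 < x) (hy : 0 ≤ y) (n : ℕ)
    (h : x ≤ ∑ i ∈ range n, y ^ i / (i.factorial : ℝ)) : Real.log x ≤ y := by
  rw [← Real.log_exp y]
  exact Real.log_le_log hx (h.trans (Real.sum_le_exp_of_nonneg hy n))

/-- `∑ log k / k²` -/
def sl (J : ℕ) : ℝ := ∑ k ∈ range J, Real.log ((k : ℝ) + 1) / ((k : ℝ) + 1) ^ 2

lemma sl_16 : sl 16 + (Real.log 16 + 1) / 16 ≤ 94288 / 100000 := by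
  have l2 : Real.log (2 : ℝ) ≤ 13863 / 20000 :=
    log_le_of_sum (by norm_num) (by norm_num) 8 (by norm_num [sum_range_succ, Nat.factorial])
  have l3 : Real.log (3 : ℝ) ≤ 54931 / 50000 :=
    log_le_of_sum (by norm_num) (by norm_num) 9 (by norm_num [sum_range_succ, Nat.factorial])
  have l4 : Real.log (4 : ℝ) ≤ 13863 / 10000 :=
    log_le_of_sum (by norm_num) (by norm_num) 10 (by norm_num [sum_range_succ, Nat.factorial])
  have l5 : Real.log (5 : ℝ) ≤ 10059 / 6250 :=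
    log_le_of_sum (by norm_num) (by norm_num) 11 (by norm_num [sum_range_succ, Nat.factorial])
  have l6 : Real.log (6 : ℝ) ≤ 22397 / 12500 :=
    log_le_of_sum (by norm_num) (by norm_num) 12 (by norm_num [sum_range_succ, Nat.factorial])
  have l7 : Real.log (7 : ℝ) ≤ 6081 / 3125 :=
    log_le_of_sum (by norm_num) (by norm_num) 11 (by norm_num [sum_range_succ, Nat.factorial])
  have l8 : Real.log (8 : ℝ) ≤ 41589 / 20000 :=
    log_le_of_sum (by norm_num) (by norm_num) 12 (by norm_num [sum_range_succ, Nat.factorial])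
  have l9 : Real.log (9 : ℝ) ≤ 219723 / 100000 :=
    log_le_of_sum (by norm_num) (by norm_num) 12 (by norm_num [sum_range_succ, Nat.factorial])
  have l10 : Real.log (10 : ℝ) ≤ 230259 / 100000 :=
    log_le_of_sum (by norm_num) (by norm_num) 13 (by norm_num [sum_range_succ, Nat.factorial])
  have l11 : Real.log (11 : ℝ) ≤ 23979 / 10000 :=
    log_le_of_sum (by norm_num) (by norm_num) 13 (by norm_num [sum_range_succ, Nat.factorial])
  have l12 : Real.log (12 : ℝ) ≤ 248491 / 100000 :=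
    log_le_of_sum (by norm_num) (by norm_num) 13 (by norm_num [sum_range_succ, Nat.factorial])
  have l13 : Real.log (13 : ℝ) ≤ 51299 / 20000 :=
    log_le_of_sum (by norm_num) (by norm_num) 14 (by norm_num [sum_range_succ, Nat.factorial])
  have l14 : Real.log (14 : ℝ) ≤ 131953 / 50000 :=
    log_le_of_sum (by norm_num) (by norm_num) 14 (by norm_num [sum_range_succ, Nat.factorial])
  have l15 : Real.log (15 : ℝ) ≤ 135403 / 50000 :=
    log_le_of_sum (by norm_num) (by norm_num) 13 (by norm_num [sum_range_succ, Nat.factorial])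
  have l16 : Real.log (16 : ℝ) ≤ 277259 / 100000 :=
    log_le_of_sum (by norm_num) (by norm_num) 15 (by norm_num [sum_range_succ, Nat.factorial])
  unfold sl
  simp only [sum_range_succ, sum_range_zero]
  norm_num
  linarith

lemma sl_step {J : ℕ} (hJ : 3 ≤ J) : Real.log ((J : ℝ) + 1) / ((J : ℝ) + 1) ^ 2 ≤
    (Real.log J + 1) / J - (Real.log ((J : ℝ) + 1) + 1) / ((J : ℝ) + 1) := by
  have hJ' : (3 : ℝ) ≤ J := by exact_mod_cast hJ
  have hJ0 : (0 : ℝ) < J := by linarith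
  have h1 : Real.log ((J : ℝ) + 1) - Real.log J ≤ 1 / J := by
    rw [← Real.log_div (by positivity) (by positivity)]
    have := Real.log_le_sub_one_of_pos (show (0 : ℝ) < ((J : ℝ) + 1) / J by positivity)
    have h2 : ((J : ℝ) + 1) / J - 1 = 1 / J := by field_simp; ring
    linarith
  have h3 : 4 / 3 ≤ Real.log ((J : ℝ) + 1) := by
    have h4 : Real.log 4 ≤ Real.log ((J : ℝ) + 1) := Real.log_le_log (by norm_num) (by linarith)
    have h5 : Real.log 4 = 2 * Real.log 2 := by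
      rw [show (4 : ℝ) = 2 ^ 2 by norm_num, Real.log_pow]; push_cast; ring
    have := Real.log_two_gt_d9
    linarith
  set l := Real.log ((J : ℝ) + 1) with hl
  have h6 : (l - 1 / J + 1) / J ≤ (Real.log J + 1) / J :=
    div_le_div_of_nonneg_right (by linarith) hJ0.le
  have h7 : l / ((J : ℝ) + 1) ^ 2 ≤ (l - 1 / J + 1) / J - (l + 1) / ((J : ℝ) + 1) := by
    rw [← sub_nonneg]
    have h8 : (l - 1 / J + 1) / J - (l + 1) / ((J : ℝ) + 1) - l / ((J : ℝ) + 1) ^ 2 =
        (l * J - (J + 1)) / (J ^ 2 * ((J : ℝ) + 1) ^ 2) := by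
      field_simp
      ring
    rw [h8]
    refine div_nonneg ?_ (by positivity)
    nlinarith
  linarith

lemma sl_le (J : ℕ) (hJ : 16 ≤ J) : sl J + (Real.log J + 1) / J ≤ 94288 / 100000 := by
  induction J, hJ using Nat.le_induction with
  | base => exact_mod_cast sl_16
  | succ J hJ ih =>
    have := sl_step (show 3 ≤ J by omega)
    unfold sl at ih ⊢
    rw [sum_range_succ]
    push_cast
    linarith

lemma sl_bound (J : ℕ) (hJ : 16 ≤ J) : sl J ≤ 94288 / 100000 := by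
  have h1 := sl_le J hJ
  have hJ' : (1 : ℝ) ≤ J := by exact_mod_cast (by omega : 1 ≤ J)
  have : 0 ≤ (Real.log J + 1) / J := div_nonneg (by have := Real.log_nonneg hJ'; linarith) (by linarith)
  linarith

/-- `∑ 1 / k²` -/
def s2 (J : ℕ) : ℝ := ∑ k ∈ range J, 1 / ((k : ℝ) + 1) ^ 2

lemma s2_le (J : ℕ) : s2 J ≤ 1644937 / 1000000 := by
  have h1 : HasSum (fun n : ℕ => 1 / (n : ℝ) ^ 2) (Real.pi ^ 2 / 6) := hasSum_zeta_two
  have h2 : s2 J ≤ Real.pi ^ 2 / 6 := by
    have h3 : s2 J = ∑ n ∈ (range J).image Nat.succ, 1 / (n : ℝ) ^ 2 := by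
      rw [sum_image (fun a _ b _ h => Nat.succ_injective h)]
      unfold s2
      refine sum_congr rfl fun k _ => ?_
      push_cast; rfl
    rw [h3]
    exact sum_le_hasSum _ (fun _ _ => by positivity) h1
  have h4 := Real.pi_lt_d6
  have h5 := Real.pi_pos
  nlinarith

/-- truncated energy -/
def en (K : ℕ) : ℝ := ∑ k ∈ range K, (2 / 5 + 2 / 25 * (Hn k + Hn (k + 1))) / ((k : ℝ) + 1) ^ 2

lemma en_30 : (9458 / 10000 : ℝ) ≤ en 30 + (2 / 5 + 4 / 25 * (Hn 30 + 1)) / 31 := by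
  unfold en
  have h : ∀ k, Hn (k + 1) = Hn k + 1 / ((k : ℝ) + 1) := Hn_succ
  have h0 : Hn 0 = 0 := by simp [Hn]
  simp only [sum_range_succ, sum_range_zero, h, h0]
  norm_num

lemma en_mono (K : ℕ) (hK : 30 ≤ K) :
    (9458 / 10000 : ℝ) ≤ en K + (2 / 5 + 4 / 25 * (Hn K + 1)) / ((K : ℝ) + 1) := by
  induction K, hK using Nat.le_induction with
  | base =>
    have := en_30
    norm_num at this ⊢
    exact this
  | succ K hK ih =>
    unfold en at ih ⊢
    rw [sum_range_succ, Hn_succ]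
    push_cast
    have hK0 : (0 : ℝ) < (K : ℝ) + 1 := by positivity
    have hH := Hn_nonneg K
    have key : (2 / 5 + 4 / 25 * (Hn K + 1)) / ((K : ℝ) + 1) ≤
        (2 / 5 + 2 / 25 * (Hn K + (Hn K + 1 / ((K : ℝ) + 1)))) / ((K : ℝ) + 1) ^ 2 +
        (2 / 5 + 4 / 25 * (Hn K + 1 / ((K : ℝ) + 1) + 1)) / ((K : ℝ) + 1 + 1) := by
      rw [← sub_nonneg]
      have e : (2 / 5 + 2 / 25 * (Hn K + (Hn K + 1 / ((K : ℝ) + 1)))) / ((K : ℝ) + 1) ^ 2 +
        (2 / 5 + 4 / 25 * (Hn K + 1 / ((K : ℝ) + 1) + 1)) / ((K : ℝ) + 1 + 1) -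
        (2 / 5 + 4 / 25 * (Hn K + 1)) / ((K : ℝ) + 1) =
        (2 / 5 * ((K : ℝ) + 1) + 4 / 25 * Hn K * ((K : ℝ) + 1) + 2 / 25 * ((K : ℝ) + 2)) /
          (((K : ℝ) + 1) ^ 3 * ((K : ℝ) + 1 + 1)) := by
        field_simp
        ring
      rw [e]
      positivity
    linarith

end

end Pool.Agent.TH871.LF
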