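import Pool.Agent.TH871.LF.Box
import Pool.Agent.H390R2.LP.Main

open Finset MeasureTheory

namespace Pool.Agent.TH871.LF

open Pool.Agent.H390R2.LP

noncomputable section

variable {h : ℕ}

/-- coefficients of the truncated Poisson kernel of the logarithm -/
def cf (r : ℝ) (j : ℕ) : ℝ := r ^ (j + 1) / ((j : ℝ) + 1)

lemma cf_nonneg {r : ℝ} (h0 : 0 < r) (j : ℕ) : 0 ≤ cf r j := by unfold cf; positivity

theorem step (h2 : 2 ≤ h) [NeZero (2 * h)] (lam : ZMod (2 * h) → ℝ) (l0 : ∀ a, 0 ≤ lam a)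
    (l1 : ∑ a, lam a = 1) (le : ∀ a, lam (-a) = lam a) {r : ℝ} (r0 : 0 < r) (r1 : r < 1) (M : ℕ)
    (L ε δ : ℝ) (hε : 0 < ε) (hδ : 0 < δ)
    (H1 : (circ lam l0 l1 le).E (ff M (cf r)) + δ ≤ ∑ j ∈ range M, cf r j + Real.log 2 +
      (avg h (fun v => Real.log (cL h v)) + Real.log ((2 * h : ℕ) : ℝ) - (circ lam l0 l1 le).S - 3 * ε)
      - L - 2 * avg h (cW h) - 2 * ε + Real.log r / 2 - r ^ (M + 1) / (1 - r) - M * (Real.pi / h))
    (H2 : L + 2 * ε + (circ lam l0 l1 le).S ≤ Real.log ((2 * h : ℕ) : ℝ)) :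
    ∃ n0 : ℕ, ∀ n ≥ n0, ∀ g : Matrix (Fin n) (Fin n) ℝ, g.det ≠ 0 →
      ∃ p : Fin n → ℤ, p ≠ 0 ∧
        |∏ i, g.mulVec (fun j => (p j : ℝ)) i| ≤ Real.exp (-(L * n)) * |g.det| := by
  classical
  set s := circ lam l0 l1 le with hs
  set f := ff (q := 2 * h) M (cf r) with hf
  set E := s.E f with hE
  set μ := avg h (fun v => Real.log (cL h v)) with hμ
  set ω := avg h (cW h) with hω
  set q : ℝ := ((2 * h : ℕ) : ℝ) with hq
  have hE0 : 0 ≤ E := Pool.Agent.H785R2.LP.E_nonneg s f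
  set D := E + δ with hD
  have hD0 : 0 < D := by positivity
  set vs := μ + Real.log q - s.S - 3 * ε with hvs
  set ε' := min ε (δ / (2 * (1 + D))) with hε'
  have hε'0 : 0 < ε' := by positivity
  have hε'1 : ε' ≤ ε := min_le_left _ _
  have hε'2 : ε' * (1 + D) ≤ δ / 2 := by
    have : ε' ≤ δ / (2 * (1 + D)) := min_le_right _ _
    calc ε' * (1 + D) ≤ δ / (2 * (1 + D)) * (1 + D) := by gcongr
      _ = δ / 2 := by field_simp
  obtain ⟨n1, hn1⟩ := iidw (ZMod (2 * h)) (ZMod (2 * h)) (Fin M × Bool) s f ε' hε'0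
  set K := (vari h (fun v => Real.log (cL h v)) + vari h (cW h)) / ε ^ 2 with hK
  obtain ⟨n2, hn2⟩ := exists_nat_gt (2 * D * K / δ)
  refine ⟨max (max n1 n2) 1, fun n hn g hg => ?_⟩
  have hnn1 : n ≥ n1 := (le_max_left _ _).trans ((le_max_left _ _).trans hn)
  have hnn2 : n2 ≤ n := (le_max_right _ _).trans ((le_max_left _ _).trans hn)
  have hn0 : 0 < n := (le_max_right _ _).trans hn
  have hnR : (0 : ℝ) < n := by exact_mod_cast hn0
  by_contra hcon
  push Not at hcon
  -- rescaling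
  have hgabs : 0 < |g.det| := abs_pos.mpr hg
  set σ := Real.exp (vs - Real.log |g.det| / n) with hσ
  have hσ0 : 0 < σ := Real.exp_pos _
  have hσn : σ ^ n * |g.det| = Real.exp (n * vs) := by
    rw [hσ, ← Real.exp_nat_mul]
    have : (n : ℝ) * (vs - Real.log |g.det| / n) = n * vs - Real.log |g.det| := by
      field_simp
    rw [this, Real.exp_sub, Real.exp_log hgabs]
    field_simp
  set g' := σ • g with hg'
  have hdet : |g'.det| = Real.exp (n * vs) := by
    rw [hg', Matrix.det_smul, Fintype.card_fin, abs_mul, abs_of_pos (pow_pos hσ0 n), hσn]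
  have hdet0 : g'.det ≠ 0 := by
    intro h0
    rw [h0, abs_zero] at hdet
    exact (Real.exp_pos _).ne hdet
  obtain ⟨Λ, hΛc, sd, hfd, hsm, hsfin, hsvol, hΛ⟩ := exists_domain g' hdet0
  have hbig : ∀ x ∈ Λ, x ≠ 0 → Real.exp (n * (vs - L)) < |∏ k, x k| := by
    intro x hx hx0
    obtain ⟨p, rfl⟩ := hΛ x hx
    have hp : p ≠ 0 := by
      rintro rfl
      apply hx0
      have : (fun j : Fin n => (((0 : Fin n → ℤ) j : ℤ) : ℝ)) = 0 := by
        funext j; simp
      rw [this, Matrix.mulVec_zero]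
    have h1 := hcon p hp
    have h3 : ∏ k, g'.mulVec (fun j => (p j : ℝ)) k = σ ^ n * ∏ k, g.mulVec (fun j => (p j : ℝ)) k := by
      rw [hg', Matrix.smul_mulVec]
      simp only [Pi.smul_apply, smul_eq_mul]
      rw [prod_mul_distrib, prod_const, card_univ, Fintype.card_fin]
    rw [h3, abs_mul, abs_of_pos (pow_pos hσ0 n)]
    have h4 : Real.exp (n * (vs - L)) = σ ^ n * (Real.exp (-(L * n)) * |g.det|) := by
      rw [show σ ^ n * (Real.exp (-(L * n)) * |g.det|) = (σ ^ n * |g.det|) * Real.exp (-(L * n)) by ring,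
        hσn, ← Real.exp_add]
      congr 1; ring
    rw [h4]
    exact mul_lt_mul_of_pos_left h1 (pow_pos hσ0 n)
  -- boxes
  set A := Real.exp (n * (μ - ε)) with hA
  have hA0 : 0 < A := Real.exp_pos _
  have hAt : A ≤ Real.exp (n * (vs - L)) := by
    rw [hA, Real.exp_le_exp]
    refine mul_le_mul_of_nonneg_left ?_ hnR.le
    rw [hvs]; linarith
  have hbox : ∀ c : Fin n → ZMod (2 * h), ∃ B : Set (Fin n → ℝ), MeasurableSet B ∧
      volume.real B = (if Typ ε c then A else 0) ∧ (∀ x ∈ B, Typ ε c ∧ x ∈ cell c) ∧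
      ∀ x ∈ B, ∀ y ∈ B, |∏ k, (x k - y k)| ≤ A := by
    intro c
    by_cases ht : Typ ε c
    · have hle : A ≤ ∏ k, cL h (ref (c k)) := by
        have h1 := ht.1
        have h3 : ∏ k, cL h (ref (c k)) = Real.exp (∑ k, Real.log (cL h (ref (c k)))) := by
          rw [Real.exp_sum]
          refine prod_congr rfl fun k _ => ?_
          rw [Real.exp_log (cL_pos h2 (ref_lt h2 _))]
        rw [h3, hA, Real.exp_le_exp]
        exact h1
      obtain ⟨B, b1, b2, b3, b4⟩ := box_spec h2 hn0 c hA0 hle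
      exact ⟨B, b1, by rw [b2, if_pos ht], fun x hx => ⟨ht, b3 hx⟩, b4⟩
    · exact ⟨∅, MeasurableSet.empty, by rw [if_neg ht]; simp, fun x hx => absurd hx (by simp),
        fun x hx => absurd hx (by simp)⟩
  choose B b1 b2 b3 b4 using hbox
  have hinj : ∀ c, ∀ x ∈ B c, ∀ y ∈ B c, x - y ∈ Λ → x = y := by
    intro c x hx y hy hxy
    by_contra hne
    have h1 := hbig (x - y) hxy (sub_ne_zero.mpr hne)
    have h3 := b4 c x hx y hy
    simp only [Pi.sub_apply] at h1
    linarith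
  obtain ⟨wt0, w1, w2, w3, w4⟩ := cover Λ sd hfd hsm hsfin B b1 hinj
  set wt : Finset (Fin n → ZMod (2 * h)) → ℝ := fun S => wt0 S / A with hwt
  have hcov : ∀ x, ∑ S ∈ univ.filter (fun S : Finset (Fin n → ZMod (2 * h)) => x ∈ S), wt S =
      if Typ ε x then 1 else 0 := by
    intro x
    simp only [hwt]
    rw [← sum_div, w2, b2]
    split_ifs
    · exact div_self hA0.ne'
    · exact zero_div _
  have hdist : ∀ S, wt S ≠ 0 → ∀ x ∈ S, ∀ y ∈ S, x ≠ y →
      n * D ≤ ∑ k, ∑ i, (f i (x k) - f i (y k)) ^ 2 := by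
    intro S hS c hc c' hc' hne
    have hS0 : wt0 S ≠ 0 := by
      intro h0; apply hS; simp only [hwt]; rw [h0, zero_div]
    obtain ⟨x, hx, y, hy, hxy⟩ := w3 S hS0 c hc c' hc'
    obtain ⟨tx, cx⟩ := b3 c x hx
    obtain ⟨ty, cy⟩ := b3 c' y hy
    have hxne : x ≠ y := by
      rintro rfl
      apply hne
      funext k
      exact cell_unique h2 (cx k (Set.mem_univ k)) (cy k (Set.mem_univ k))
    have hb := hbig (x - y) hxy (sub_ne_zero.mpr hxne)
    simp only [Pi.sub_apply] at hb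
    have hprod : 0 < |∏ k, (x k - y k)| := (Real.exp_pos _).trans hb
    have hkne : ∀ k, x k ≠ y k := by
      intro k hk
      rw [abs_pos, prod_ne_zero_iff] at hprod
      exact hprod k (mem_univ k) (sub_eq_zero.mpr hk)
    have hlog : n * (vs - L) ≤ ∑ k, Real.log |x k - y k| := by
      have h1 := Real.log_le_log (Real.exp_pos _) hb.le
      rw [Real.log_exp, abs_prod, Real.log_prod] at h1
      · exact h1
      · intro k _
        exact abs_ne_zero.mpr (sub_ne_zero.mpr (hkne k))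
    have hg1 : ∀ k, ∑ i, (f i (c k) - f i (c' k)) ^ 2 ≥ ∑ j ∈ range M, cf r j + Real.log 2 +
        Real.log |x k - y k| - cW h (ref (c k)) - cW h (ref (c' k)) + Real.log r / 2 -
        r ^ (M + 1) / (1 - r) - M * (Real.pi / h) := by
      intro k
      rw [hf, dist_ff M (cf r) (cf_nonneg r0)]
      have h1 := geo h2 r0 r1 M (cx k (Set.mem_univ k)) (cy k (Set.mem_univ k)) (hkne k)
      have h3 : ∑ j ∈ range M, cf r j * (1 - Cq (((j + 1 : ℕ) : ZMod (2 * h)) * (c k - c' k))) =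
          ∑ j ∈ range M, cf r j - ∑ j ∈ range M, r ^ (j + 1) / ((j : ℝ) + 1) *
            Cq (((j + 1 : ℕ) : ZMod (2 * h)) * (c k - c' k)) := by
        rw [← sum_sub_distrib]
        refine sum_congr rfl fun j _ => ?_
        unfold cf; ring
      rw [h3]
      linarith
    have hsum : ∑ k : Fin n, (∑ j ∈ range M, cf r j + Real.log 2 +
        Real.log |x k - y k| - cW h (ref (c k)) - cW h (ref (c' k)) + Real.log r / 2 -
        r ^ (M + 1) / (1 - r) - M * (Real.pi / h)) = n * (∑ j ∈ range M, cf r j + Real.log 2 +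
        Real.log r / 2 - r ^ (M + 1) / (1 - r) - M * (Real.pi / h)) + ∑ k, Real.log |x k - y k| -
        ∑ k, cW h (ref (c k)) - ∑ k, cW h (ref (c' k)) := by
      simp only [sum_add_distrib, sum_sub_distrib, sum_const, card_univ, Fintype.card_fin,
        nsmul_eq_mul]
      ring
    have hfin := sum_le_sum (s := (univ : Finset (Fin n))) (fun k _ => (hg1 k).le)
    rw [hsum] at hfin
    refine le_trans ?_ hfin
    have t1 := tx.2
    have t2 := ty.2
    have hH1 : (n : ℝ) * D ≤ n * (∑ j ∈ range M, cf r j + Real.log 2 + vs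
      - L - 2 * ω - 2 * ε + Real.log r / 2 - r ^ (M + 1) / (1 - r) - M * (Real.pi / h)) :=
      mul_le_mul_of_nonneg_left H1 hnR.le
    have e5 : (n : ℝ) * (∑ j ∈ range M, cf r j + Real.log 2 + vs
      - L - 2 * ω - 2 * ε + Real.log r / 2 - r ^ (M + 1) / (1 - r) - M * (Real.pi / h)) =
      n * (∑ j ∈ range M, cf r j + Real.log 2 +
        Real.log r / 2 - r ^ (M + 1) / (1 - r) - M * (Real.pi / h)) + n * (vs - L) -
        n * (ω + ε) - n * (ω + ε) := by ring
    rw [e5] at hH1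
    linarith
  have htot : ∑ S, wt S ≤ Real.exp (n * (s.h - s.S - ε')) := by
    simp only [hwt]
    rw [← sum_div, w4, hsvol, hdet, hA, ← Real.exp_sub, Real.exp_le_exp, hs, circ_h, ← hs]
    rw [← mul_sub]
    refine mul_le_mul_of_nonneg_left ?_ hnR.le
    rw [hvs]; linarith
  have key := hn1 n hnn1 wt (n * D) (by positivity) (fun S => div_nonneg (w1 S) hA0.le)
    (fun x => by rw [hcov]; split_ifs <;> norm_num) hdist htot
  have hdef : ∑ x : Fin n → ZMod (2 * h), (∏ k, s.P (x k)) *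
      (1 - ∑ S ∈ univ.filter (fun S : Finset (Fin n → ZMod (2 * h)) => x ∈ S), wt S) ≤ K / n := by
    have h1 : ∀ x : Fin n → ZMod (2 * h), (∏ k, s.P (x k)) *
        (1 - ∑ S ∈ univ.filter (fun S : Finset (Fin n → ZMod (2 * h)) => x ∈ S), wt S) =
        if ¬ Typ ε x then ∏ k : Fin n, ((2 * h : ℕ) : ℝ)⁻¹ else 0 := by
      intro x
      rw [hcov]
      simp only [hs, circ_P]
      by_cases ht : Typ ε x
      · simp [ht]
      · simp [ht]
    simp_rw [h1]
    rw [← sum_filter]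
    have h3 := atyp (n := n) h2 hn0 hε
    refine h3.trans (le_of_eq ?_)
    rw [hK]
    field_simp
  have hKD : D * (K / n) < δ / 2 := by
    have h1 : 2 * D * K / δ < n := lt_of_lt_of_le hn2 (by exact_mod_cast hnn2)
    rw [div_lt_iff₀ hδ] at h1
    rw [mul_div_assoc', div_lt_iff₀ hnR]
    linarith
  have hfinal : (n : ℝ) * (D * (1 - ε' - K / n)) ≤ n * (E + ε') := by
    refine le_trans ?_ key
    rw [mul_assoc]
    refine mul_le_mul_of_nonneg_left ?_ hnR.le
    refine mul_le_mul_of_nonneg_left ?_ hD0.le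
    linarith
  have h9 := le_of_mul_le_mul_left hfinal hnR
  have h10 : D * (1 - ε' - K / n) = D - D * ε' - D * (K / n) := by ring
  rw [h10] at h9
  have h11 : ε' * (1 + D) = ε' + D * ε' := by ring
  rw [h11] at hε'2
  linarith

end

end Pool.Agent.TH871.LF
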